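import Mathlib

/-!
# Series
-/

set_option autoImplicit false

namespace Pool.Agent.KS6_31.FD

open Finset Filter

/-- condensation with a logarithm -/
lemma condense (ψ : ℕ → ℝ) (h0 : ∀ q, 0 ≤ ψ q) (hψ : Antitone ψ)
    (hs : Summable fun m : ℕ => (m : ℝ) * ((16 : ℝ) ^ m * ψ (2 ^ (4 * m + 3)))) :
    Summable fun q : ℕ => ψ q * Real.log q := by
  have hnn : ∀ q : ℕ, 0 ≤ ψ q * Real.log q := fun q => mul_nonneg (h0 q) (Real.log_natCast_nonneg q)
  have hb0 : ∀ m : ℕ, 0 ≤ (16 : ℝ) ^ m * ψ (2 ^ (4 * m + 3)) := fun m => mul_nonneg (by positivity) (h0 _)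
  obtain ⟨B, hB⟩ : ∃ B : ℝ, B = ∑ q ∈ range (2 ^ 7), ψ q * Real.log q := ⟨_, rfl⟩
  have key : ∀ M : ℕ, ∑ q ∈ range (2 ^ (4 * M + 7)), ψ q * Real.log q ≤
      B + ∑ m ∈ range (M + 1), 1408 * ((m : ℝ) * ((16 : ℝ) ^ m * ψ (2 ^ (4 * m + 3)))) := by
    intro M
    induction M with
    | zero =>
      simp only [mul_zero, zero_add, range_one, sum_singleton, Nat.cast_zero, zero_mul, add_zero]
      rw [hB]
    | succ M ih =>
      have hle : 2 ^ (4 * M + 7) ≤ 2 ^ (4 * (M + 1) + 7) := Nat.pow_le_pow_right (by norm_num) (by omega)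
      rw [← sum_range_add_sum_Ico _ hle, sum_range_succ _ (M + 1)]
      have h1 : ∑ q ∈ Ico (2 ^ (4 * M + 7)) (2 ^ (4 * (M + 1) + 7)), ψ q * Real.log q ≤
          1408 * (((M + 1 : ℕ) : ℝ) * ((16 : ℝ) ^ (M + 1) * ψ (2 ^ (4 * (M + 1) + 3)))) := by
        have h2 : ∀ q ∈ Ico (2 ^ (4 * M + 7)) (2 ^ (4 * (M + 1) + 7)), ψ q * Real.log q ≤
            ψ (2 ^ (4 * (M + 1) + 3)) * (4 * (M + 1) + 7) := by
          intro q hq
          rw [mem_Ico] at hq
          have h3 : ψ q ≤ ψ (2 ^ (4 * (M + 1) + 3)) := hψ (by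
            have e : 4 * (M + 1) + 3 = 4 * M + 7 := by ring
            rw [e]; exact hq.1)
          have h4 : Real.log q ≤ 4 * (M + 1) + 7 := by
            have h5 : (0 : ℝ) < q := by
              have : 0 < q := lt_of_lt_of_le (by positivity) hq.1
              exact_mod_cast this
            have h6 : (q : ℝ) ≤ (2 : ℝ) ^ (4 * (M + 1) + 7) := by exact_mod_cast hq.2.le
            calc Real.log q ≤ Real.log ((2 : ℝ) ^ (4 * (M + 1) + 7)) := Real.log_le_log h5 h6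
              _ = ((4 * (M + 1) + 7 : ℕ) : ℝ) * Real.log 2 := Real.log_pow _ _
              _ ≤ ((4 * (M + 1) + 7 : ℕ) : ℝ) * 1 := by
                  gcongr
                  have := Real.log_two_lt_d9
                  linarith
              _ = 4 * (M + 1) + 7 := by push_cast; ring
          exact mul_le_mul h3 h4 (Real.log_natCast_nonneg q) (h0 _)
        refine (sum_le_sum h2).trans ?_
        rw [sum_const, Nat.card_Ico, nsmul_eq_mul]
        have h3 : ((2 ^ (4 * (M + 1) + 7) - 2 ^ (4 * M + 7) : ℕ) : ℝ) ≤ 128 * 16 ^ (M + 1) := by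
          have h4 : 2 ^ (4 * (M + 1) + 7) - 2 ^ (4 * M + 7) ≤ 2 ^ (4 * (M + 1) + 7) := Nat.sub_le _ _
          have h5 : 2 ^ (4 * (M + 1) + 7) = 128 * 16 ^ (M + 1) := by
            rw [pow_add, pow_mul]; norm_num; ring
          rw [h5] at h4
          have h6 : ((2 ^ (4 * (M + 1) + 7) - 2 ^ (4 * M + 7) : ℕ) : ℝ) ≤ ((128 * 16 ^ (M + 1) : ℕ) : ℝ) := by
            exact_mod_cast (by rw [h5] at *; exact h4)
          push_cast at h6 ⊢
          exact h6
        have h4 : (4 * ((M : ℝ) + 1) + 7) ≤ 11 * (M + 1) := by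
          have : (0 : ℝ) ≤ M := Nat.cast_nonneg M
          linarith
        have h5 := h0 (2 ^ (4 * (M + 1) + 3))
        calc ((2 ^ (4 * (M + 1) + 7) - 2 ^ (4 * M + 7) : ℕ) : ℝ) * (ψ (2 ^ (4 * (M + 1) + 3)) * (4 * (M + 1) + 7))
            ≤ (128 * 16 ^ (M + 1)) * (ψ (2 ^ (4 * (M + 1) + 3)) * (11 * (M + 1))) := by gcongr
          _ = _ := by push_cast; ring
      linarith
  apply summable_of_sum_range_le hnn (c := B + ∑' m : ℕ, 1408 * ((m : ℝ) * ((16 : ℝ) ^ m * ψ (2 ^ (4 * m + 3)))))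
  intro n
  have h1 : n ≤ 2 ^ (4 * n + 7) := by
    calc n ≤ 2 ^ n := Nat.lt_two_pow_self.le
      _ ≤ 2 ^ (4 * n + 7) := Nat.pow_le_pow_right (by norm_num) (by omega)
  calc ∑ q ∈ range n, ψ q * Real.log q ≤ ∑ q ∈ range (2 ^ (4 * n + 7)), ψ q * Real.log q :=
        sum_le_sum_of_subset_of_nonneg (range_subset_range.2 h1) fun q _ _ => hnn q
    _ ≤ _ := key n
    _ ≤ _ := by
        have h2 := (hs.mul_left 1408).sum_le_tsum (range (n + 1)) (fun m _ => by
          have := hb0 m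
          positivity)
        linarith

/-- truncation -/
lemma truncate (b : ℕ → ℝ) (_h0 : ∀ m, 0 ≤ b m) (hs : ¬ Summable fun m : ℕ => (m : ℝ) * b m) :
    ¬ Summable fun m : ℕ => (m : ℝ) * min 1 (b m) := by
  intro h
  apply hs
  have h1 := h.tendsto_atTop_zero
  have h2 : ∀ᶠ m : ℕ in atTop, (m : ℝ) * min 1 (b m) < 1 := h1.eventually (gt_mem_nhds one_pos)
  have h3 : ∀ᶠ m : ℕ in atTop, (m : ℝ) * min 1 (b m) = (m : ℝ) * b m := by
    filter_upwards [h2, eventually_ge_atTop 1] with m hm hm1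
    rcases le_total 1 (b m) with h4 | h4
    · rw [min_eq_left h4] at hm
      have : (1 : ℝ) ≤ m := by exact_mod_cast hm1
      linarith
    · rw [min_eq_right h4]
  exact (summable_congr_atTop h3).1 h

end Pool.Agent.KS6_31.FD
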