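import Pool.Agent.KS6_31.FD.Level
import Pool.Agent.KS6_31.FD.Series

/-!
# The divergence theorem
-/

set_option autoImplicit false

namespace Pool.Agent.KS6_31.FD

open Finset Filter MeasureTheory
open Pool.Agent.H469R2.NK (e)
open Pool.Agent.Helper478.Lit (dist1 dist1_nonneg dist1_half)

/-- eventually the exponential wins -/
lemma expo_wins (c : ℝ) (hc : 0 < c) :
    ∃ K : ℕ, ∀ l : ℕ, K ≤ l → 400 * (l : ℝ) ^ 6 ≤ c ^ 2 * (2 : ℝ) ^ ((l : ℝ) / 4) := by
  have h1 : (1 : ℝ) < (2 : ℝ) ^ ((1 : ℝ) / 4) := Real.one_lt_rpow (by norm_num) (by norm_num)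
  have h2 := tendsto_pow_const_div_const_pow_of_one_lt 6 h1
  have h3 : ∀ᶠ n : ℕ in atTop, (n : ℝ) ^ 6 / ((2 : ℝ) ^ ((1 : ℝ) / 4)) ^ n < c ^ 2 / 400 :=
    h2.eventually (gt_mem_nhds (by positivity))
  obtain ⟨K, hK⟩ := eventually_atTop.1 h3
  refine ⟨K, fun l hl => ?_⟩
  have h4 := hK l hl
  have h5 : (0 : ℝ) < ((2 : ℝ) ^ ((1 : ℝ) / 4)) ^ l := by positivity
  rw [div_lt_iff₀ h5] at h4
  have h6 : ((2 : ℝ) ^ ((1 : ℝ) / 4)) ^ l = (2 : ℝ) ^ ((l : ℝ) / 4) := by
    rw [← Real.rpow_natCast, ← Real.rpow_mul (by norm_num)]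
    congr 1
    ring
  rw [h6] at h4
  linarith

/-- large finite parts of a divergent series of nonnegative terms, beyond any point -/
lemma far_sum (f : ℕ → ℝ) (h0 : ∀ m, 0 ≤ f m) (hs : ¬ Summable f) (K : ℕ) (T : ℝ) :
    ∃ L : Finset ℕ, (∀ m ∈ L, K ≤ m) ∧ T ≤ ∑ m ∈ L, f m := by
  have h1 : ¬ Summable fun m => f (m + K) := fun h => hs ((summable_nat_add_iff K).1 h)
  have h2 : Tendsto (fun n => ∑ i ∈ range n, f (i + K)) atTop atTop :=
    (not_summable_iff_tendsto_nat_atTop_of_nonneg (fun m => h0 _)).1 h1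
  obtain ⟨n, hn⟩ := (h2.eventually (eventually_ge_atTop T)).exists
  refine ⟨(range n).map (addRightEmbedding K), ?_, ?_⟩
  · intro m hm
    simp only [Finset.mem_map, mem_range, addRightEmbedding_apply] at hm
    obtain ⟨a, _, rfl⟩ := hm
    omega
  · rw [sum_map]
    simpa using hn

/-- the set of `β` with no solution beyond `k` is null -/
lemma null (α c : ℝ) (hc : 0 < c) (hbad : ∀ q : ℕ, 1 ≤ q → c ≤ q * dist1 (q * α))
    (ν : Measure ℝ) [IsFiniteMeasure ν] (C σ : ℝ) (hσ : 0 < σ)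
    (hν : ∀ m : ℤ, m ≠ 0 → ‖∫ β, e ((m : ℝ) * β) ∂ν‖ ≤ C * |(m : ℝ)| ^ (-σ))
    (ψ : ℕ → ℝ) (h0 : ∀ q, 0 ≤ ψ q) (hψ : Antitone ψ)
    (hdiv : ¬ Summable fun q : ℕ => ψ q * Real.log q) (ζ : ℕ → ℝ) (k : ℕ) :
    ν {β | ∀ q : ℕ, k ≤ q → ψ q ≤ dist1 (q * α) * dist1 (q * β - ζ q)} = 0 := by
  have hc1 : c ≤ 1 := by
    have h1 := hbad 1 le_rfl
    have h2 := dist1_half ((1 : ℕ) * α)
    push_cast at h1 h2
    linarith
  have hC : 0 ≤ C := by
    have h1 := hν 1 one_ne_zero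
    have h2 := norm_nonneg (∫ β, e (((1 : ℤ) : ℝ) * β) ∂ν)
    simp only [Int.cast_one, abs_one, Real.one_rpow, mul_one, one_mul] at h1 h2
    linarith
  obtain ⟨N0, hN0⟩ := exists_nat_ge (max 24 (16 / σ))
  have hN24 : (24 : ℝ) ≤ N0 := (le_max_left _ _).trans hN0
  have hNσ : 16 / σ ≤ N0 := (le_max_right _ _).trans hN0
  have hNpos : (0 : ℝ) < N0 := by linarith
  have hN1 : 0 < N0 := by exact_mod_cast hNpos
  have hNσ' : 16 ≤ σ * N0 := by
    rw [div_le_iff₀ hσ] at hNσ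
    linarith
  obtain ⟨D, hD⟩ : ∃ D : ℕ → ℕ, ∀ l, D l = l / N0 := ⟨_, fun _ => rfl⟩
  have hDle : ∀ l, (D l : ℝ) ≤ (l : ℝ) / N0 := by
    intro l
    rw [hD]
    exact Nat.cast_div_le
  have hDge : ∀ l : ℕ, (l : ℝ) / N0 - 1 ≤ D l := by
    intro l
    have h1 : l < N0 * (l / N0) + N0 := by
      have := Nat.div_add_mod l N0
      have := Nat.mod_lt l hN1
      omega
    have h2 : (l : ℝ) < N0 * (l / N0 : ℕ) + N0 := by exact_mod_cast h1
    rw [hD, sub_le_iff_le_add, div_le_iff₀ hNpos]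
    nlinarith
  -- the two exponential bounds
  have h4 : ∀ l : ℕ, (4 : ℝ) ^ D l ≤ (2 : ℝ) ^ (σ * l / 8) := by
    intro l
    have e1 : (4 : ℝ) ^ D l = (2 : ℝ) ^ (2 * (D l : ℝ)) := by
      rw [Real.rpow_mul (by norm_num), Real.rpow_natCast]
      norm_num
    rw [e1]
    apply Real.rpow_le_rpow_of_exponent_le (by norm_num)
    have h1 := hDle l
    have h2 : 2 * ((l : ℝ) / N0) ≤ σ * l / 8 := by
      rw [mul_div_assoc', div_le_div_iff₀ hNpos (by norm_num)]
      have : (0 : ℝ) ≤ l := Nat.cast_nonneg l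
      nlinarith
    linarith
  have h64 : ∀ l : ℕ, (64 : ℝ) ^ D l ≤ (2 : ℝ) ^ ((l : ℝ) / 4) := by
    intro l
    have e1 : (64 : ℝ) ^ D l = (2 : ℝ) ^ (6 * (D l : ℝ)) := by
      rw [Real.rpow_mul (by norm_num), Real.rpow_natCast]
      norm_num
    rw [e1]
    apply Real.rpow_le_rpow_of_exponent_le (by norm_num)
    have h1 := hDle l
    have h2 : 6 * ((l : ℝ) / N0) ≤ l / 4 := by
      rw [mul_div_assoc', div_le_div_iff₀ hNpos (by norm_num)]
      have : (0 : ℝ) ≤ l := Nat.cast_nonneg l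
      nlinarith
    linarith
  obtain ⟨K1, hK1⟩ := expo_wins c hc
  have hlarge : ∀ l : ℕ, K1 ≤ l →
      400 * (64 : ℝ) ^ D l * (l : ℝ) ^ 6 ≤ c ^ 2 * (2 : ℝ) ^ ((l : ℝ) / 2) := by
    intro l hl
    have e1 : (2 : ℝ) ^ ((l : ℝ) / 2) = (2 : ℝ) ^ ((l : ℝ) / 4) * (2 : ℝ) ^ ((l : ℝ) / 4) := by
      rw [← Real.rpow_add (by norm_num)]
      congr 1
      ring
    have h1 := hK1 l hl
    have h2 := h64 l
    have h3 : (0 : ℝ) ≤ (2 : ℝ) ^ ((l : ℝ) / 4) := by positivity
    calc 400 * (64 : ℝ) ^ D l * (l : ℝ) ^ 6 = (64 : ℝ) ^ D l * (400 * (l : ℝ) ^ 6) := by ring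
      _ ≤ (2 : ℝ) ^ ((l : ℝ) / 4) * (c ^ 2 * (2 : ℝ) ^ ((l : ℝ) / 4)) := by gcongr
      _ = _ := by rw [e1]; ring
  -- the heights
  obtain ⟨b, hb⟩ : ∃ b : ℕ → ℝ, ∀ m, b m = (16 : ℝ) ^ m * ψ (2 ^ (4 * m + 3)) := ⟨_, fun _ => rfl⟩
  have hb0 : ∀ m, 0 ≤ b m := fun m => by rw [hb]; exact mul_nonneg (by positivity) (h0 _)
  obtain ⟨Y, hY⟩ : ∃ Y : ℕ → ℕ, ∀ l, Y l = ⌈24 / (c * 2 ^ l * ψ (2 ^ (l + 3)))⌉₊ := ⟨_, fun _ => rfl⟩
  have hbY : ∀ m, 2 ^ (4 * m) * ψ (2 ^ (4 * m + 3)) = b m := by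
    intro m
    rw [hb, pow_mul]
    norm_num
  have hYb : ∀ m, 0 < b m → 24 / (c * b m) ≤ Y (4 * m) ∧ (Y (4 * m) : ℝ) ≤ 48 / (c * min 1 (b m)) ∧
      1 ≤ Y (4 * m) := by
    intro m hm
    have e1 : Y (4 * m) = ⌈24 / (c * b m)⌉₊ := by
      rw [hY, mul_assoc, hbY]
    have h1 : 0 < 24 / (c * b m) := by positivity
    rw [e1]
    refine ⟨Nat.le_ceil _, ?_, ?_⟩
    · have h2 := Nat.ceil_lt_add_one h1.le
      have h3 : 0 < min 1 (b m) := lt_min one_pos hm
      have h4 : 24 / (c * b m) ≤ 24 / (c * min 1 (b m)) := by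
        gcongr
        exact min_le_right _ _
      have h5 : (1 : ℝ) ≤ 24 / (c * min 1 (b m)) := by
        rw [le_div_iff₀ (by positivity)]
        have : c * min 1 (b m) ≤ 1 * 1 := mul_le_mul hc1 (min_le_left _ _) h3.le zero_le_one
        linarith
      have h6 : 48 / (c * min 1 (b m)) = 24 / (c * min 1 (b m)) + 24 / (c * min 1 (b m)) := by ring
      rw [h6]
      linarith
    · exact Nat.one_le_iff_ne_zero.2 (Nat.ceil_pos.2 h1).ne'
  -- divergence
  have hdb : ¬ Summable fun m : ℕ => (m : ℝ) * min 1 (b m) := by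
    apply truncate b hb0
    intro h
    apply hdiv
    apply condense ψ h0 hψ
    simpa only [hb] using h
  let G : Set ℕ := {m | 0 < b m ∧ Y (4 * m) ≤ (4 * m) ^ 3}
  let f : ℕ → ℝ := fun m => (m : ℝ) * min 1 (b m)
  have hf0 : ∀ m, 0 ≤ f m := fun m => mul_nonneg (Nat.cast_nonneg m) (le_min zero_le_one (hb0 m))
  have hdG : ¬ Summable (G.indicator f) := by
    intro h
    apply hdb
    have h1 : Summable ((Gᶜ).indicator f) := by
      have h2 : Summable fun m : ℕ => (1 / c) * (1 / (m : ℝ) ^ 2) :=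
        (Real.summable_one_div_nat_pow.2 (by norm_num)).mul_left _
      refine Summable.of_nonneg_of_le (fun m => Set.indicator_nonneg (fun x _ => hf0 x) m) (fun m => ?_) h2
      by_cases hm : m ∈ Gᶜ
      · rw [Set.indicator_of_mem hm]
        simp only [G, Set.mem_compl_iff, Set.mem_ofPred_eq, not_and, not_le] at hm
        rcases (hb0 m).eq_or_lt with h3 | h3
        · simp only [f]
          rw [← h3, min_eq_right zero_le_one, mul_zero]
          positivity
        · have h4 := hm h3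
          obtain ⟨_, h5, _⟩ := hYb m h3
          have h6 : (((4 * m) ^ 3 : ℕ) : ℝ) < Y (4 * m) := by exact_mod_cast h4
          rcases Nat.eq_zero_or_pos m with h7 | h7
          · simp only [f, h7]
            simp
          · have h8 : (0 : ℝ) < m := by exact_mod_cast h7
            have h9 : 0 < min 1 (b m) := lt_min one_pos h3
            have h10 := h6.le.trans h5
            rw [le_div_iff₀ (by positivity)] at h10
            push_cast at h10
            simp only [f]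
            rw [one_div_mul_one_div, le_div_iff₀ (by positivity)]
            have e1 : (m : ℝ) * min 1 (b m) * (c * (m : ℝ) ^ 2) = (4 * (m : ℝ)) ^ 3 * (c * min 1 (b m)) / 64 := by
              ring
            rw [e1]
            linarith
      · rw [Set.indicator_of_notMem hm]
        positivity
    have h2 := h.add h1
    have e1 : (fun m => G.indicator f m + (Gᶜ).indicator f m) = f := by
      ext m
      exact congrFun (Set.indicator_self_add_compl G f) m
    rw [e1] at h2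
    exact h2
  -- the geometric sum
  have hgeo : Summable fun l : ℕ => ((2 : ℝ) ^ (-(σ / 8))) ^ l :=
    summable_geometric_of_lt_one (by positivity)
      (Real.rpow_lt_one_of_one_lt_of_neg (by norm_num) (by linarith))
  obtain ⟨S, hS⟩ : ∃ S : ℝ, S = ∑' l : ℕ, ((2 : ℝ) ^ (-(σ / 8))) ^ l := ⟨_, rfl⟩
  have hSL : ∀ L : Finset ℕ, ∑ l ∈ L, (4 : ℝ) ^ D l * (2 : ℝ) ^ (-(σ * l / 4)) ≤ S := by
    intro L
    rw [hS]
    refine (sum_le_sum fun l _ => ?_).trans (hgeo.sum_le_tsum L (fun l _ => by positivity))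
    calc (4 : ℝ) ^ D l * (2 : ℝ) ^ (-(σ * l / 4)) ≤ (2 : ℝ) ^ (σ * l / 8) * (2 : ℝ) ^ (-(σ * l / 4)) := by
          gcongr
          exact h4 l
      _ = (2 : ℝ) ^ (-(σ / 8) * l) := by
          rw [← Real.rpow_add (by norm_num)]
          congr 1
          ring
      _ = _ := by rw [Real.rpow_mul (by norm_num), Real.rpow_natCast]
  -- the main bound
  obtain ⟨E, hE⟩ : ∃ E : Set ℝ, E = {β | ∀ q : ℕ, k ≤ q → ψ q ≤ dist1 (q * α) * dist1 (q * β - ζ q)} :=
    ⟨_, rfl⟩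
  have main : ∀ M : ℝ, 0 < M → ν.real E ≤ 1000 * ν.real Set.univ / M + 625 * C * S ^ 2 / M ^ 2 := by
    intro M hM
    obtain ⟨L', hL'K, hL'T⟩ := far_sum (G.indicator f) (fun m => Set.indicator_nonneg (fun x _ => hf0 x) m) hdG
      (max (max K1 k) (22 * N0)) (96 * N0 * M / c)
    -- restrict to the good ones
    obtain ⟨L1, hL1⟩ : ∃ L1 : Finset ℕ, ∀ m, m ∈ L1 ↔ (m ∈ L' ∧ m ∈ G) := by
      classical
      exact ⟨L'.filter (· ∈ G), fun m => by simp⟩
    have hL1sum : ∑ m ∈ L1, f m = ∑ m ∈ L', G.indicator f m := by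
      symm
      rw [← sum_subset (s₁ := L1) (fun m hm => ((hL1 m).1 hm).1)]
      · exact sum_congr rfl fun m hm => Set.indicator_of_mem ((hL1 m).1 hm).2 f
      · intro m hm hm'
        rw [hL1, not_and] at hm'
        exact Set.indicator_of_notMem (hm' hm) f
    have h4inj : Set.InjOn (fun m : ℕ => 4 * m) L1 := fun x _ y _ h => by
      simp only at h
      omega
    let L : Finset ℕ := L1.image (fun m => 4 * m)
    have hL : ∀ l ∈ L, ∃ m, l = 4 * m ∧ m ∈ G ∧ K1 ≤ m ∧ k ≤ m ∧ 22 * N0 ≤ m := by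
      intro l hl
      simp only [L, mem_image] at hl
      obtain ⟨m, hm, rfl⟩ := hl
      have h1 := hL'K m ((hL1 m).1 hm).1
      refine ⟨m, rfl, ((hL1 m).1 hm).2, ?_, ?_, ?_⟩
      · exact ((le_max_left _ _).trans (le_max_left _ _)).trans h1
      · exact ((le_max_right _ _).trans (le_max_left _ _)).trans h1
      · exact (le_max_right _ _).trans h1
    have hDbig : ∀ l : ℕ, 22 * N0 ≤ l → (l : ℝ) / (2 * N0) ≤ (D l : ℝ) - 10 := by
      intro l hl
      have h1 := hDge l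
      have h2 : (22 : ℝ) * N0 ≤ l := by exact_mod_cast hl
      have h3 : (11 : ℝ) ≤ l / (2 * N0) := by
        rw [le_div_iff₀ (by positivity)]
        linarith
      have e1 : (l : ℝ) / N0 = l / (2 * N0) + l / (2 * N0) := by
        field_simp
        ring
      linarith
    have hlev := levels α c hc hc1 hbad ν C σ hC hσ hν D Y ζ L
      (by intro l hl; obtain ⟨m, rfl, _⟩ := hL l hl; exact dvd_mul_right 4 m)
      (by intro l hl; obtain ⟨m, rfl, _, _, _, h1⟩ := hL l hl; omega)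
      (by intro l hl; rw [hD]; exact Nat.div_le_self _ _)
      (by intro l hl l' hl' h; rw [hD, hD]; exact Nat.div_le_div_right h)
      (by
        intro l hl
        obtain ⟨m, rfl, _, _, _, h1⟩ := hL l hl
        rw [hD, Nat.le_div_iff_mul_le hN1]
        omega)
      (by
        intro l hl
        obtain ⟨m, rfl, _, h1, _, _⟩ := hL l hl
        exact hlarge _ (by omega))
      (by intro l hl; obtain ⟨m, rfl, h1, _⟩ := hL l hl; exact (hYb m h1.1).2.2)
      (by intro l hl; obtain ⟨m, rfl, h1, _⟩ := hL l hl; exact h1.2)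
      S (hSL L) M hM
      (by
        have h1 : 96 * N0 * M / c ≤ ∑ m ∈ L1, f m := by rw [hL1sum]; exact hL'T
        have h2 : M ≤ c / (96 * N0) * ∑ m ∈ L1, f m := by
          calc M = c / (96 * N0) * (96 * N0 * M / c) := by field_simp
            _ ≤ _ := by gcongr
        refine h2.trans ?_
        simp only [L]
        rw [sum_image h4inj, mul_sum]
        apply sum_le_sum
        intro m hm
        obtain ⟨hm1, hm2⟩ := (hL1 m).1 hm
        have h3 := hL'K m hm1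
        have h4 : 22 * N0 ≤ m := (le_max_right _ _).trans h3
        obtain ⟨_, h5, h6⟩ := hYb m hm2.1
        have h7 := hDbig (4 * m) (by omega)
        have h8 : 0 < min 1 (b m) := lt_min one_pos hm2.1
        have h9 : (0 : ℝ) < Y (4 * m) := by exact_mod_cast h6
        have h10 : (0 : ℝ) < m := by
          have : 0 < m := by omega
          exact_mod_cast this
        simp only [f]
        rw [le_div_iff₀ (by positivity)]
        push_cast at h7
        refine le_trans ?_ h7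
        calc c / (96 * N0) * (m * min 1 (b m)) * (4 * (Y (4 * m) : ℝ))
            ≤ c / (96 * N0) * (m * min 1 (b m)) * (4 * (48 / (c * min 1 (b m)))) := by gcongr
          _ = 4 * m / (2 * N0) := by
              field_simp
              norm_num)
    refine le_trans (measureReal_mono ?_) hlev
    intro β hβ l hl q hq1 hq2
    rw [hE] at hβ
    obtain ⟨m, rfl, h1, _, h2, _⟩ := hL l hl
    have h3 : k ≤ q := by
      have : m < 2 ^ m := Nat.lt_two_pow_self
      have : 2 ^ m ≤ 2 ^ (4 * m) := Nat.pow_le_pow_right (by norm_num) (by omega)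
      omega
    refine le_trans ?_ (hβ q h3)
    have h4 : q ≤ 2 ^ (4 * m + 3) := by
      rw [pow_add]
      omega
    refine le_trans ?_ (hψ h4)
    obtain ⟨h5, _, h6⟩ := hYb m h1.1
    have h7 : (0 : ℝ) < Y (4 * m) := by exact_mod_cast h6
    have hbm := h1.1
    rw [div_le_iff₀ (by positivity)] at h5 ⊢
    have e1 : ψ (2 ^ (4 * m + 3)) * (c * 2 ^ (4 * m) * (Y (4 * m) : ℝ)) = (Y (4 * m) : ℝ) * (c * b m) := by
      rw [← hbY]
      ring
    rw [e1]
    exact h5
  have hlim : Tendsto (fun M : ℝ => 1000 * ν.real Set.univ / M + 625 * C * S ^ 2 / M ^ 2) atTop (nhds 0) := by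
    have h1 : Tendsto (fun M : ℝ => 1000 * ν.real Set.univ / M) atTop (nhds 0) :=
      tendsto_const_nhds.div_atTop tendsto_id
    have h2 : Tendsto (fun M : ℝ => 625 * C * S ^ 2 / M ^ 2) atTop (nhds 0) :=
      tendsto_const_nhds.div_atTop (tendsto_pow_atTop (by norm_num))
    simpa using h1.add h2
  have hle : ν.real E ≤ 0 := by
    apply ge_of_tendsto hlim
    filter_upwards [eventually_gt_atTop 0] with M hM
    exact main M hM
  have hz : ν.real E = 0 := le_antisymm hle measureReal_nonneg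
  rw [measureReal_eq_zero_iff] at hz
  rw [← hE]
  exact hz

/-- **Gallagher on fibres for measures with Fourier decay.** -/
theorem gallagher (α c : ℝ) (hc : 0 < c) (hbad : ∀ q : ℕ, 1 ≤ q → c ≤ q * dist1 (q * α))
    (ν : Measure ℝ) [IsFiniteMeasure ν] (C σ : ℝ) (hσ : 0 < σ)
    (hν : ∀ m : ℤ, m ≠ 0 → ‖∫ β, e ((m : ℝ) * β) ∂ν‖ ≤ C * |(m : ℝ)| ^ (-σ))
    (ψ : ℕ → ℝ) (h0 : ∀ q, 0 ≤ ψ q) (hψ : Antitone ψ)
    (hdiv : ¬ Summable fun q : ℕ => ψ q * Real.log q) (ζ : ℕ → ℝ) :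
    ∀ᵐ β ∂ν, ∃ᶠ q : ℕ in atTop, dist1 (q * α) * dist1 (q * β - ζ q) < ψ q := by
  have h1 : ∀ k : ℕ, ∀ᵐ β ∂ν, ¬ ∀ q : ℕ, k ≤ q → ψ q ≤ dist1 (q * α) * dist1 (q * β - ζ q) := by
    intro k
    rw [ae_iff]
    simp only [not_not]
    exact null α c hc hbad ν C σ hσ hν ψ h0 hψ hdiv ζ k
  filter_upwards [ae_all_iff.2 h1] with β hβ
  rw [frequently_atTop]
  intro k
  have h2 := hβ k
  push Not at h2
  exact h2

end Pool.Agent.KS6_31.FD
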