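import Mathlib
import Pool.Agent.KS6_31.FD.Main

set_option autoImplicit false

/-! # MP_0ea415_nt: Gallagher's theorem over a badly approximable number for measures with Fourier decay

Let `α` be badly approximable (if it is not, Littlewood's conjecture is true for all pairs `(α, β)`) and
let `μ` be a finite Borel measure on the line whose Fourier coefficients at the nonzero integers `m` are at
most `C |m| ^ (-σ)` for some `σ > 0`. Let `ψ ≥ 0` be a non-increasing function on the positive integers such
that the series `∑ ψ(q) log q` diverges and let `γ_q` be arbitrary real numbers. Then for `μ`-almost all `β`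
there are infinitely many `q` with `‖qα‖ ‖qβ - γ_q‖ < ψ(q)`.

For `ψ(q) = ε / (q (log q)²)` this gives `liminf q (log q)² ‖qα‖ ‖qβ - γ_q‖ = 0`, the rate of Gallagher's
theorem for Lebesgue almost all pairs, for almost all `β` with respect to every measure with polynomial
Fourier decay, e.g. for Kaufman's measures, that live on badly approximable `β`. The exceptional set of `β`
has Fourier dimension zero.

Proof. For a scale `X = 2^(l-j)` take a basis of the lattice of the pairs `(q, p)` adapted to `X` and the
primitive vectors `u w₁ + v w₂` with `u, v` about `2^j`. They give `q` with `q ‖qα‖ ≪ 4^j`, `q` about `2^l`, and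
one wants `‖qβ - γ_q‖` to be at most `1 / (4^j Y)`. Here `l` runs through the levels of the divergent
series and `j` through about `l / N₀` values for each of them: this is the second logarithm. The number of
solutions (counted with Fejér kernels) has the expected mean value, and its variance is a sum
of Fourier coefficients of `μ` at the integers `h q - h' q'`. As `α` is badly approximable, each of these
integers is at least `2^(l/4)` or `h (q, p) = h' (q', p')`; the vectors being primitive the latter holds only
in the diagonal case.
-/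

open Filter MeasureTheory

namespace Pool.Agent.KS6_31.FD.Hand

/-- **Main result.** -/
theorem result (α : ℝ) (hα : ∃ c : ℝ, 0 < c ∧ ∀ q : ℕ, 1 ≤ q → c ≤ q * |q * α - round (q * α)|)
    (μ : Measure ℝ) [IsFiniteMeasure μ] (C σ : ℝ) (hσ : 0 < σ)
    (hμ : ∀ m : ℤ, m ≠ 0 →
      ‖∫ β : ℝ, Complex.exp (2 * Real.pi * Complex.I * (m * β)) ∂μ‖ ≤ C * |(m : ℝ)| ^ (-σ))
    (ψ : ℕ → ℝ) (h0 : ∀ q, 0 ≤ ψ q) (hψ : Antitone ψ)
    (hdiv : ¬ Summable fun q : ℕ => ψ q * Real.log q) (γ : ℕ → ℝ) :
    ∀ᵐ β ∂μ, ∃ᶠ q : ℕ in atTop,
      |q * α - round (q * α)| * |(q * β - γ q) - round (q * β - γ q)| < ψ q := by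
  obtain ⟨c, hc, hbad⟩ := hα
  refine Pool.Agent.KS6_31.FD.gallagher α c hc hbad μ C σ hσ ?_ ψ h0 hψ hdiv γ
  intro m hm
  have h := hμ m hm
  have e1 : (fun β : ℝ => Pool.Agent.H469R2.NK.e ((m : ℝ) * β)) =
      fun β : ℝ => Complex.exp (2 * Real.pi * Complex.I * (m * β)) := by
    ext β
    unfold Pool.Agent.H469R2.NK.e
    congr 1
    push_cast
    ring
  rw [e1]
  exact h

end Pool.Agent.KS6_31.FD.Hand
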