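import Pool.Agent.KS6_31.FD.Sep

/-!
# Finitely many levels
-/

set_option autoImplicit false

namespace Pool.Agent.KS6_31.FD

open Finset Filter MeasureTheory
open Pool.Agent.H469R2.NK (e norm_e e_add e_zero conj_e)
open Pool.Agent.Helper478.Lit (dist1 dist1_nonneg dist1_half)
open Pool.Agent.Helper478.Lit.Sq (basis cell cop cell_card_le pow_sum geo)

open scoped Classical in
/-- **finitely many levels** -/
theorem levels (α c : ℝ) (hc : 0 < c) (hc1 : c ≤ 1) (hbad : ∀ q : ℕ, 1 ≤ q → c ≤ q * dist1 (q * α))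
    (ν : Measure ℝ) [IsFiniteMeasure ν] (C σ : ℝ) (hC : 0 ≤ C) (hσ : 0 < σ)
    (hν : ∀ m : ℤ, m ≠ 0 → ‖∫ β, e ((m : ℝ) * β) ∂ν‖ ≤ C * |(m : ℝ)| ^ (-σ))
    (D Y : ℕ → ℕ) (ζ : ℕ → ℝ) (L : Finset ℕ) (hL4 : ∀ l ∈ L, 4 ∣ l) (hL1 : ∀ l ∈ L, 1 ≤ l)
    (hDl : ∀ l ∈ L, D l ≤ l) (hDmono : ∀ l ∈ L, ∀ l' ∈ L, l' ≤ l → D l' ≤ D l)
    (hD : ∀ l ∈ L, 11 ≤ D l)
    (hlarge : ∀ l ∈ L, 400 * (64 : ℝ) ^ D l * (l : ℝ) ^ 6 ≤ c ^ 2 * (2 : ℝ) ^ ((l : ℝ) / 2))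
    (hY1 : ∀ l ∈ L, 1 ≤ Y l) (hY3 : ∀ l ∈ L, Y l ≤ l ^ 3)
    (S : ℝ) (hS : ∑ l ∈ L, (4 : ℝ) ^ D l * (2 : ℝ) ^ (-(σ * l / 4)) ≤ S)
    (M : ℝ) (hM : 0 < M) (hM2 : M ≤ ∑ l ∈ L, ((D l : ℝ) - 10) / (4 * Y l)) :
    ν.real {β | ∀ l ∈ L, ∀ q : ℕ, 2 ^ l ≤ q → q ≤ 6 * 2 ^ l →
      24 / (c * 2 ^ l * Y l) ≤ dist1 (q * α) * dist1 (q * β - ζ q)} ≤
      1000 * ν.real Set.univ / M + 625 * C * S ^ 2 / M ^ 2 := by
  choose a b p r hB using fun k : ℕ => basis α c hc hbad (2 ^ k) (Nat.one_le_two_pow)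
  -- the vectors
  let H : (Σ _ : (Σ _ : ℕ, ℕ), ℕ × ℕ) → ℕ := fun t => 4 ^ t.1.2 * Y t.1.1
  let qv : (Σ _ : (Σ _ : ℕ, ℕ), ℕ × ℕ) → ℤ := fun t =>
    t.2.1 * a (t.1.1 - t.1.2) + t.2.2 * b (t.1.1 - t.1.2)
  let Pv : (Σ _ : (Σ _ : ℕ, ℕ), ℕ × ℕ) → ℤ := fun t =>
    t.2.1 * p (t.1.1 - t.1.2) + t.2.2 * r (t.1.1 - t.1.2)
  let Q : Finset (Σ _ : (Σ _ : ℕ, ℕ), ℕ × ℕ) :=
    (L.sigma fun l => Ico 10 (D l)).sigma fun lj => cell lj.2
  obtain ⟨rel, hrel⟩ : ∃ rel : (Σ _ : (Σ _ : ℕ, ℕ), ℕ × ℕ) → (Σ _ : (Σ _ : ℕ, ℕ), ℕ × ℕ) → Prop,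
      ∀ t t', rel t t' ↔ (qv t = qv t' ∧ Pv t = Pv t') := ⟨_, fun _ _ => Iff.rfl⟩
  have hQ : ∀ t ∈ Q, t.1.1 ∈ L ∧ 10 ≤ t.1.2 ∧ t.1.2 < D t.1.1 ∧ 2 ^ t.1.2 ≤ t.2.1 ∧ t.2.1 < 2 * 2 ^ t.1.2 ∧
      2 ^ t.1.2 ≤ t.2.2 ∧ t.2.2 < 2 * 2 ^ t.1.2 ∧ Nat.Coprime t.2.1 t.2.2 := by
    intro t ht
    simp only [Q, mem_sigma, mem_Ico, cell, mem_filter, mem_product] at ht
    tauto
  have hjl : ∀ t ∈ Q, t.1.2 ≤ t.1.1 := by
    intro t ht
    obtain ⟨h1, _, h2, _⟩ := hQ t ht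
    have := hDl _ h1
    omega
  have hsplit : ∀ t ∈ Q, 2 ^ t.1.2 * 2 ^ (t.1.1 - t.1.2) = 2 ^ t.1.1 := by
    intro t ht
    rw [← pow_add]
    congr 1
    have := hjl t ht
    omega
  -- the facts
  have F1 : ∀ t ∈ Q, ((2 ^ t.1.1 : ℕ) : ℤ) ≤ qv t ∧ qv t ≤ ((6 * 2 ^ t.1.1 : ℕ) : ℤ) := by
    intro t ht
    obtain ⟨_, _, _, h1, h2, h3, h4, _⟩ := hQ t ht
    obtain ⟨_, b1, b2, b3, b4, _, _⟩ := hB (t.1.1 - t.1.2)
    have hs := hsplit t ht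
    simp only [qv]
    set k := t.1.1 - t.1.2 with hk
    have h1' : ((2 ^ t.1.2 : ℕ) : ℤ) ≤ t.2.1 := by exact_mod_cast h1
    have h2' : (t.2.1 : ℤ) ≤ 2 * ((2 ^ t.1.2 : ℕ) : ℤ) := by exact_mod_cast h2.le
    have h3' : ((2 ^ t.1.2 : ℕ) : ℤ) ≤ t.2.2 := by exact_mod_cast h3
    have h4' : (t.2.2 : ℤ) ≤ 2 * ((2 ^ t.1.2 : ℕ) : ℤ) := by exact_mod_cast h4.le
    have hX : (0 : ℤ) < ((2 ^ k : ℕ) : ℤ) := by positivity
    have hU : (0 : ℤ) < ((2 ^ t.1.2 : ℕ) : ℤ) := by positivity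
    have hs' : ((2 ^ t.1.1 : ℕ) : ℤ) = ((2 ^ t.1.2 : ℕ) : ℤ) * ((2 ^ k : ℕ) : ℤ) := by
      rw [← hs]; push_cast; ring
    constructor
    · rw [hs']
      have e1 : (0 : ℤ) ≤ t.2.1 * a k := by positivity
      have e2 : ((2 ^ t.1.2 : ℕ) : ℤ) * ((2 ^ k : ℕ) : ℤ) ≤ t.2.2 * b k :=
        mul_le_mul h3' b3.le hX.le (by positivity)
      linarith
    · have e1 : (t.2.1 : ℤ) * a k ≤ 2 * ((2 ^ t.1.2 : ℕ) : ℤ) * ((2 ^ k : ℕ) : ℤ) :=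
        mul_le_mul h2' b2 b1.le (by positivity)
      have e2 : (t.2.2 : ℤ) * b k ≤ 2 * ((2 ^ t.1.2 : ℕ) : ℤ) * (2 * ((2 ^ k : ℕ) : ℤ)) :=
        mul_le_mul h4' b4 (by linarith) (by positivity)
      have e3 : ((6 * 2 ^ t.1.1 : ℕ) : ℤ) = 6 * (((2 ^ t.1.2 : ℕ) : ℤ) * ((2 ^ k : ℕ) : ℤ)) := by
        rw [← hs']; push_cast; ring
      rw [e3]
      linarith
  have F1R : ∀ t ∈ Q, (2 : ℝ) ^ t.1.1 ≤ qv t ∧ (qv t : ℝ) ≤ 6 * 2 ^ t.1.1 := by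
    intro t ht
    obtain ⟨h1, h2⟩ := F1 t ht
    constructor
    · have : (((2 ^ t.1.1 : ℕ) : ℤ) : ℝ) ≤ qv t := by exact_mod_cast h1
      simpa using this
    · have : (qv t : ℝ) ≤ (((6 * 2 ^ t.1.1 : ℕ) : ℤ) : ℝ) := by exact_mod_cast h2
      simpa using this
  have Fpos : ∀ t ∈ Q, 0 < qv t := by
    intro t ht
    have h1 := (F1 t ht).1
    have h2 : (0 : ℤ) < ((2 ^ t.1.1 : ℕ) : ℤ) := by positivity
    linarith
  have F3 : ∀ t ∈ Q, |(qv t : ℝ) * α - Pv t| ≤ 8 * 4 ^ t.1.2 / (c * 2 ^ t.1.1) := by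
    intro t ht
    obtain ⟨_, _, _, h1, h2, h3, h4, _⟩ := hQ t ht
    obtain ⟨_, _, _, _, _, b5, b6⟩ := hB (t.1.1 - t.1.2)
    have hs := hsplit t ht
    have h2' : (t.2.1 : ℝ) ≤ 2 * 2 ^ t.1.2 := by exact_mod_cast h2.le
    have h4' : (t.2.2 : ℝ) ≤ 2 * 2 ^ t.1.2 := by exact_mod_cast h4.le
    have e1 : (qv t : ℝ) * α - Pv t = t.2.1 * (a (t.1.1 - t.1.2) * α - p (t.1.1 - t.1.2)) +
        t.2.2 * (b (t.1.1 - t.1.2) * α - r (t.1.1 - t.1.2)) := by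
      simp only [qv, Pv]
      push_cast
      ring
    rw [e1]
    set k := t.1.1 - t.1.2 with hk
    have hX : (0 : ℝ) < ((2 ^ k : ℕ) : ℝ) := by positivity
    refine (abs_add_le _ _).trans ?_
    rw [abs_mul, abs_mul, Nat.abs_cast, Nat.abs_cast]
    have e2 : (1 : ℝ) / ((2 ^ k : ℕ) : ℝ) ≤ 1 / (c * ((2 ^ k : ℕ) : ℝ)) := by
      apply one_div_le_one_div_of_le (by positivity)
      exact mul_le_of_le_one_left hX.le hc1
    have hs' : (2 : ℝ) ^ t.1.1 = 2 ^ t.1.2 * ((2 ^ k : ℕ) : ℝ) := by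
      have : ((2 ^ t.1.2 * 2 ^ k : ℕ) : ℝ) = ((2 ^ t.1.1 : ℕ) : ℝ) := by exact_mod_cast hs
      push_cast at this ⊢
      exact this.symm
    have h44 : (4 : ℝ) ^ t.1.2 = 2 ^ t.1.2 * 2 ^ t.1.2 := by rw [← mul_pow]; norm_num
    calc (t.2.1 : ℝ) * |(a k : ℝ) * α - p k| + t.2.2 * |(b k : ℝ) * α - r k| ≤
          (2 * 2 ^ t.1.2) * (1 / (c * ((2 ^ k : ℕ) : ℝ))) + (2 * 2 ^ t.1.2) * (3 / (c * ((2 ^ k : ℕ) : ℝ))) :=
          add_le_add (mul_le_mul h2' (b5.trans e2) (abs_nonneg _) (by positivity))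
            (mul_le_mul h4' b6 (abs_nonneg _) (by positivity))
      _ = _ := by
          rw [hs', h44]
          field_simp
          ring
  have F4 : ∀ t ∈ Q, ∃ x y : ℤ, x * qv t + y * Pv t = 1 := by
    intro t ht
    obtain ⟨_, _, _, _, _, _, _, h5⟩ := hQ t ht
    obtain ⟨b0, _⟩ := hB (t.1.1 - t.1.2)
    have h6 : IsCoprime (t.2.1 : ℤ) (t.2.2 : ℤ) := Nat.isCoprime_iff_coprime.2 h5
    obtain ⟨x, y, hxy⟩ := h6
    refine ⟨x * r (t.1.1 - t.1.2) - y * p (t.1.1 - t.1.2),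
      y * a (t.1.1 - t.1.2) - x * b (t.1.1 - t.1.2), ?_⟩
    simp only [qv, Pv]
    linear_combination (x * (t.2.1 : ℤ) + y * (t.2.2 : ℤ)) * b0 + hxy
  have Fh : ∀ t ∈ Q, ∀ l, t.1.1 ≤ l → l ∈ L → ∀ h : ℤ, |h| ≤ ((2 * H t : ℕ) : ℤ) →
      |(h : ℝ)| ≤ 2 * (4 ^ D l * l ^ 3) := by
    intro t ht l hl hlL h hh
    obtain ⟨h1, _, h2, _⟩ := hQ t ht
    have h3 : |(h : ℝ)| ≤ 2 * (4 ^ t.1.2 * Y t.1.1) := by
      have : ((|h| : ℤ) : ℝ) ≤ (((2 * H t : ℕ) : ℤ) : ℝ) := by exact_mod_cast hh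
      rw [Int.cast_abs] at this
      simp only [H] at this
      push_cast at this
      exact this
    have h4 : (Y t.1.1 : ℝ) ≤ (l : ℝ) ^ 3 := by
      have h5 : (Y t.1.1 : ℝ) ≤ (t.1.1 : ℝ) ^ 3 := by exact_mod_cast hY3 _ h1
      have h6 : (t.1.1 : ℝ) ≤ l := by exact_mod_cast hl
      exact h5.trans (by gcongr)
    have h7 : (4 : ℝ) ^ t.1.2 ≤ 4 ^ D l :=
      pow_le_pow_right₀ (by norm_num) (h2.le.trans (hDmono l hlL _ h1 hl))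
    refine h3.trans ?_
    gcongr
  have F5 : ∀ t ∈ Q, ∀ l, t.1.1 ≤ l → l ∈ L → ∀ h : ℤ, |h| ≤ ((2 * H t : ℕ) : ℤ) →
      |(h : ℝ) * ((qv t : ℝ) * α - Pv t)| ≤ 16 * 16 ^ D l * l ^ 3 / (c * 2 ^ t.1.1) := by
    intro t ht l hl hlL h hh
    obtain ⟨h1, _, h2, _⟩ := hQ t ht
    rw [abs_mul]
    have h3 := Fh t ht l hl hlL h hh
    have h4 := F3 t ht
    have h7 : (4 : ℝ) ^ t.1.2 ≤ 4 ^ D l :=
      pow_le_pow_right₀ (by norm_num) (h2.le.trans (hDmono l hlL _ h1 hl))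
    calc |(h : ℝ)| * |(qv t : ℝ) * α - Pv t| ≤ (2 * (4 ^ D l * l ^ 3)) * (8 * 4 ^ t.1.2 / (c * 2 ^ t.1.1)) :=
          mul_le_mul h3 h4 (abs_nonneg _) (by positivity)
      _ ≤ (2 * (4 ^ D l * l ^ 3)) * (8 * 4 ^ D l / (c * 2 ^ t.1.1)) := by gcongr
      _ = 16 * (4 ^ D l * 4 ^ D l) * l ^ 3 / (c * 2 ^ t.1.1) := by ring
      _ = _ := by
          have : (4 : ℝ) ^ D l * 4 ^ D l = 16 ^ D l := by rw [← mul_pow]; norm_num
          rw [this]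
  -- separation for ordered pairs
  have F6 : ∀ t ∈ Q, ∀ t' ∈ Q, t'.1.1 ≤ t.1.1 → ∀ h h' : ℤ, |h| ≤ ((2 * H t : ℕ) : ℤ) →
      |h'| ≤ ((2 * H t' : ℕ) : ℤ) → h ≠ 0 →
      (h * qv t ≠ h' * qv t' → (2 : ℝ) ^ ((t.1.1 : ℝ) / 2) ≤ |((h * qv t - h' * qv t' : ℤ) : ℝ)|) ∧
      (h * qv t = h' * qv t' → h * Pv t = h' * Pv t') := by
    intro t ht t' ht' hle h h' hh hh' h0
    obtain ⟨h1, _⟩ := hQ t ht
    exact sep α c hc hc1 hbad t.1.1 t'.1.1 (D t.1.1) hle (hL1 _ h1) (hlarge _ h1) (qv t) (Pv t) (qv t')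
      (Pv t') h h' (F1R t ht).1 (Fpos t' ht') (F1R t' ht').2 h0 (Fh t' ht' _ hle h1 h' hh')
      (F5 t ht _ le_rfl h1 h hh) (F5 t' ht' _ hle h1 h' hh')
  -- the weights
  let w : (Σ _ : (Σ _ : ℕ, ℕ), ℕ × ℕ) → ℝ := fun t => √C * (2 : ℝ) ^ (-(σ * t.1.1 / 4))
  have hw0 : ∀ t, 0 ≤ w t := fun t => by simp only [w]; positivity
  have hwW : ∀ t ∈ Q, ∀ t' ∈ Q, t'.1.1 ≤ t.1.1 → ∀ m : ℤ, m ≠ 0 →
      (2 : ℝ) ^ ((t.1.1 : ℝ) / 2) ≤ |(m : ℝ)| → ‖∫ β, e ((m : ℝ) * β) ∂ν‖ ≤ w t * w t' := by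
    intro t ht t' ht' hle m hm hlow
    refine (hν m hm).trans ?_
    have h1 : |(m : ℝ)| ^ (-σ) ≤ ((2 : ℝ) ^ ((t.1.1 : ℝ) / 2)) ^ (-σ) :=
      Real.rpow_le_rpow_of_nonpos (by positivity) hlow (by linarith)
    have h2 : ((2 : ℝ) ^ ((t.1.1 : ℝ) / 2)) ^ (-σ) = (2 : ℝ) ^ (-(σ * t.1.1 / 2)) := by
      rw [← Real.rpow_mul (by norm_num)]
      congr 1
      ring
    have h3 : (2 : ℝ) ^ (-(σ * t.1.1 / 2)) ≤ (2 : ℝ) ^ (-(σ * t.1.1 / 4)) * (2 : ℝ) ^ (-(σ * t'.1.1 / 4)) := by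
      rw [← Real.rpow_add (by norm_num)]
      apply Real.rpow_le_rpow_of_exponent_le (by norm_num)
      have h4 : (t'.1.1 : ℝ) ≤ t.1.1 := by exact_mod_cast hle
      nlinarith
    have h5 : w t * w t' = C * ((2 : ℝ) ^ (-(σ * t.1.1 / 4)) * (2 : ℝ) ^ (-(σ * t'.1.1 / 4))) := by
      simp only [w]
      have : √C * √C = C := Real.mul_self_sqrt hC
      calc _ = (√C * √C) * ((2 : ℝ) ^ (-(σ * t.1.1 / 4)) * (2 : ℝ) ^ (-(σ * t'.1.1 / 4))) := by ring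
        _ = _ := by rw [this]
    rw [h5]
    gcongr
    rw [h2] at h1
    linarith
  have hneg : ∀ m : ℤ, ‖∫ β, e ((m : ℝ) * β) ∂ν‖ = ‖∫ β, e (((-m : ℤ) : ℝ) * β) ∂ν‖ := by
    intro m
    have h1 : ∀ β : ℝ, e (((-m : ℤ) : ℝ) * β) = (starRingEnd ℂ) (e ((m : ℝ) * β)) := by
      intro β
      rw [conj_e]
      congr 1
      push_cast
      ring
    simp_rw [h1]
    rw [integral_conj, RCLike.norm_conj]
  have key := secmomM ν Q H (fun t ht => by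
      have := hY1 _ (hQ t ht).1
      simp only [H]
      exact Nat.one_le_iff_ne_zero.2 (by positivity)) qv
    (fun t => ζ (qv t).toNat) rel w hw0 (by
      intro t ht t' ht' h h' hh hh' h0 h0' hne
      rcases le_total t'.1.1 t.1.1 with hle | hle
      · exact hwW t ht t' ht' hle _ (sub_ne_zero.2 hne) ((F6 t ht t' ht' hle h h' hh hh' h0).1 hne)
      · have h1 := hwW t' ht' t ht hle _ (sub_ne_zero.2 hne.symm)
          ((F6 t' ht' t ht hle h' h hh' hh h0').1 hne.symm)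
        rw [hneg, mul_comm (w t)]
        have h2 : -(h * qv t - h' * qv t') = h' * qv t' - h * qv t := by ring
        rw [h2]
        exact h1)
    (by
      intro t ht t' ht' h h' hh hh' h0 h0' heq
      have h1 : h * Pv t = h' * Pv t' := by
        rcases le_total t'.1.1 t.1.1 with hle | hle
        · exact (F6 t ht t' ht' hle h h' hh hh' h0).2 heq
        · exact ((F6 t' ht' t ht hle h' h hh' hh h0').2 heq.symm).symm
      obtain ⟨e1, e2, e3⟩ := prim (qv t) (Pv t) (qv t') (Pv t') h h' (F4 t ht) (F4 t' ht') (Fpos t ht)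
        (Fpos t' ht') h0 h0' heq h1
      exact ⟨e1, (hrel _ _).2 ⟨e2, e3⟩⟩)
    (fun t t' h => (hrel _ _).2 ⟨((hrel _ _).1 h).1.symm, ((hrel _ _).1 h).2.symm⟩)
    (by
      intro t ht
      obtain ⟨hl, hj10, hjD, _⟩ := hQ t ht
      set R0 := Q.filter (fun t' => rel t t' ∧ H t ≤ H t') with hR0
      have hR : ∀ t' ∈ R0, t' ∈ Q ∧ qv t = qv t' ∧ Pv t = Pv t' ∧ H t ≤ H t' := by
        intro t' ht'
        rw [hR0, mem_filter] at ht'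
        exact ⟨ht'.1, ((hrel _ _).1 ht'.2.1).1, ((hrel _ _).1 ht'.2.1).2, ht'.2.2⟩
      have hle : ∀ t1 ∈ Q, ∀ t2 ∈ Q, qv t1 = qv t2 → t1.1.1 ≤ t2.1.1 := by
        intro t1 h1 t2 h2 heq
        by_contra hcon
        have d1 := hL4 _ (hQ t1 h1).1
        have d2 := hL4 _ (hQ t2 h2).1
        have h3 : t2.1.1 + 4 ≤ t1.1.1 := by omega
        have g1 := (F1 t1 h1).1
        have g2 := (F1 t2 h2).2
        rw [heq] at g1
        have g3 : 2 ^ t1.1.1 ≤ 6 * 2 ^ t2.1.1 := by exact_mod_cast g1.trans g2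
        have g4 : 2 ^ (t2.1.1 + 4) ≤ 2 ^ t1.1.1 := Nat.pow_le_pow_right (by norm_num) h3
        rw [pow_add] at g4
        have g5 : 0 < 2 ^ t2.1.1 := by positivity
        omega
      have hlev : ∀ t' ∈ R0, t'.1.1 = t.1.1 := by
        intro t' ht'
        obtain ⟨h1, h2, _⟩ := hR t' ht'
        exact le_antisymm (hle t' h1 t ht h2.symm) (hle t ht t' h1 h2)
      have hinj : Set.InjOn (fun t' : (Σ _ : (Σ _ : ℕ, ℕ), ℕ × ℕ) => t'.1.2) R0 := by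
        intro t1 h1 t2 h2 h3
        obtain ⟨a1, a2, a3, _⟩ := hR t1 h1
        obtain ⟨c1, c2, c3, _⟩ := hR t2 h2
        have l1 := hlev t1 h1
        have l2 := hlev t2 h2
        obtain ⟨⟨k1, j1⟩, u1, v1⟩ := t1
        obtain ⟨⟨k2, j2⟩, u2, v2⟩ := t2
        simp only at h3 l1 l2
        have l3 : k1 = k2 := l1.trans l2.symm
        subst h3
        subst l3
        obtain ⟨b0, _⟩ := hB (k1 - j1)
        rw [a2] at c2
        rw [a3] at c3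
        simp only [qv, Pv] at c2 c3
        have e1 : (u1 : ℤ) = u2 := by
          linear_combination (-(u1 : ℤ) + u2) * b0 + r (k1 - j1) * c2 - b (k1 - j1) * c3
        have e2 : (v1 : ℤ) = v2 := by
          linear_combination (-(v1 : ℤ) + v2) * b0 - p (k1 - j1) * c2 + a (k1 - j1) * c3
        have e3 : u1 = u2 := by exact_mod_cast e1
        have e4 : v1 = v2 := by exact_mod_cast e2
        rw [e3, e4]
      have hYpos : 0 < Y t.1.1 := hY1 _ hl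
      have hYR : (0 : ℝ) < Y t.1.1 := by exact_mod_cast hYpos
      have himg : R0.image (fun t' => t'.1.2) ⊆ Ico t.1.2 (D t.1.1) := by
        intro j hj
        obtain ⟨t', ht', rfl⟩ := mem_image.1 hj
        obtain ⟨h1, _, _, h2⟩ := hR t' ht'
        obtain ⟨_, _, h3, _⟩ := hQ t' h1
        have h4 := hlev t' ht'
        rw [mem_Ico]
        refine ⟨?_, by rw [← h4]; exact h3⟩
        simp only [H] at h2
        rw [h4] at h2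
        have h5 := Nat.le_of_mul_le_mul_right h2 hYpos
        exact (Nat.pow_le_pow_iff_right (by norm_num)).1 h5
      calc ∑ t' ∈ R0, 1 / (H t' : ℝ) = ∑ t' ∈ R0, 1 / ((4 : ℝ) ^ t'.1.2 * Y t.1.1) := by
            refine sum_congr rfl fun t' ht' => ?_
            simp only [H]
            rw [hlev t' ht']
            push_cast
            rfl
        _ = ∑ j ∈ R0.image (fun t' => t'.1.2), 1 / ((4 : ℝ) ^ j * Y t.1.1) := by
            rw [sum_image hinj]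
        _ ≤ ∑ j ∈ Ico t.1.2 (D t.1.1), 1 / ((4 : ℝ) ^ j * Y t.1.1) :=
            sum_le_sum_of_subset_of_nonneg himg fun _ _ _ => by positivity
        _ ≤ ∑ j ∈ Ico t.1.2 (D t.1.1), 3 / (4 : ℝ) ^ j * (1 / Y t.1.1) := by
            refine sum_le_sum fun j _ => ?_
            rw [show (3 : ℝ) / 4 ^ j * (1 / Y t.1.1) = 3 / (4 ^ j * Y t.1.1) by field_simp]
            gcongr
            norm_num
        _ = (∑ j ∈ Ico t.1.2 (D t.1.1), 3 / (4 : ℝ) ^ j) * (1 / Y t.1.1) := by rw [sum_mul]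
        _ ≤ 4 / 4 ^ t.1.2 * (1 / Y t.1.1) := by
            have h2 := geo t.1.2 (D t.1.1) hjD.le
            have h3 : (0 : ℝ) ≤ 4 / 4 ^ (D t.1.1) := by positivity
            gcongr
            linarith
        _ = 4 / (H t : ℝ) := by
            simp only [H]
            push_cast
            field_simp)
  -- the mean value
  obtain ⟨μ, hμ⟩ : ∃ μ : ℝ, μ = ∑ t ∈ Q, 1 / (H t : ℝ) := ⟨_, rfl⟩
  rw [← hμ] at key
  have hMμ : M ≤ μ := by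
    rw [hμ]
    simp only [Q]
    rw [sum_sigma, sum_sigma]
    refine hM2.trans (sum_le_sum fun l hl => ?_)
    have hYR : (0 : ℝ) < Y l := by exact_mod_cast hY1 l hl
    have h1 : ∀ j ∈ Ico 10 (D l), 1 / (4 * (Y l : ℝ)) ≤ ∑ uv ∈ cell j, 1 / (H ⟨⟨l, j⟩, uv⟩ : ℝ) := by
      intro j hj
      rw [mem_Ico] at hj
      simp only [H]
      rw [sum_const, nsmul_eq_mul]
      push_cast
      have h2 := cop j hj.1
      calc 1 / (4 * (Y l : ℝ)) = (4 ^ j / 4) * (1 / (4 ^ j * Y l)) := by field_simp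
        _ ≤ _ := mul_le_mul_of_nonneg_right h2 (by positivity)
    refine le_trans (le_of_eq ?_) (sum_le_sum h1)
    rw [sum_const, Nat.card_Ico, nsmul_eq_mul, Nat.cast_sub (by have := hD l hl; omega)]
    push_cast
    field_simp
  have hwS : ∑ t ∈ Q, w t ≤ √C * S := by
    simp only [Q]
    rw [sum_sigma, sum_sigma]
    refine le_trans ?_ (mul_le_mul_of_nonneg_left hS (Real.sqrt_nonneg C))
    rw [mul_sum]
    refine sum_le_sum fun l _ => ?_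
    simp only [w]
    have h1 : ∀ j ∈ Ico 10 (D l), ∑ _uv ∈ cell j, √C * (2 : ℝ) ^ (-(σ * l / 4)) ≤
        4 ^ j * (√C * (2 : ℝ) ^ (-(σ * l / 4))) := by
      intro j _
      rw [sum_const, nsmul_eq_mul]
      exact mul_le_mul_of_nonneg_right (cell_card_le j) (by positivity)
    refine (sum_le_sum h1).trans ?_
    rw [← sum_mul]
    have h2 : ∑ j ∈ Ico 10 (D l), (4 : ℝ) ^ j ≤ 4 ^ D l := by
      refine le_trans (sum_le_sum_of_subset_of_nonneg (t := range (D l)) ?_ ?_) (pow_sum (D l))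
      · intro j hj; rw [mem_Ico] at hj; rw [mem_range]; exact hj.2
      · intro _ _ _; positivity
    calc (∑ j ∈ Ico 10 (D l), (4 : ℝ) ^ j) * (√C * (2 : ℝ) ^ (-(σ * l / 4))) ≤
          4 ^ D l * (√C * (2 : ℝ) ^ (-(σ * l / 4))) := by gcongr
      _ = _ := by ring
  have hμ0 : 0 < μ := lt_of_lt_of_le hM hMμ
  have hw2 : (25 * ∑ t ∈ Q, w t) ^ 2 ≤ 625 * C * S ^ 2 := by
    have h1 : 0 ≤ ∑ t ∈ Q, w t := sum_nonneg fun t _ => hw0 t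
    calc (25 * ∑ t ∈ Q, w t) ^ 2 ≤ (25 * (√C * S)) ^ 2 := by gcongr
      _ = 625 * (√C * √C) * S ^ 2 := by ring
      _ = _ := by rw [Real.mul_self_sqrt hC]
  have hsub : {β | ∀ l ∈ L, ∀ q : ℕ, 2 ^ l ≤ q → q ≤ 6 * 2 ^ l →
      24 / (c * 2 ^ l * Y l) ≤ dist1 (q * α) * dist1 (q * β - ζ q)} ⊆
      {β | ∀ t ∈ Q, 3 / (H t : ℝ) ≤ dist1 (qv t * β - ζ (qv t).toNat)} := by
    intro β hβ t ht
    by_contra hcon
    push Not at hcon
    obtain ⟨hl, _, hj, _⟩ := hQ t ht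
    obtain ⟨f1, f2⟩ := F1 t ht
    have f3 := F3 t ht
    obtain ⟨q, hq⟩ : ∃ q : ℕ, q = (qv t).toNat := ⟨_, rfl⟩
    have hqz : (q : ℤ) = qv t := by rw [hq]; exact Int.toNat_of_nonneg (Fpos t ht).le
    have hqr : (qv t : ℝ) = q := by rw [← hqz]; simp
    rw [hqr] at f3 hcon
    rw [← hq] at hcon
    rw [← hqz] at f1 f2
    have f1' : 2 ^ t.1.1 ≤ q := by exact_mod_cast f1
    have f2' : q ≤ 6 * 2 ^ t.1.1 := by exact_mod_cast f2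
    have h1 := hβ t.1.1 hl q f1' f2'
    have hYR : (0 : ℝ) < Y t.1.1 := by exact_mod_cast hY1 _ hl
    have h2 : dist1 ((q : ℝ) * α) ≤ 8 * 4 ^ t.1.2 / (c * 2 ^ t.1.1) := (round_le _ (Pv t)).trans f3
    -- `q α` is not an integer
    have h3 : 0 < dist1 ((q : ℝ) * α) := by
      have hq1 : 1 ≤ q := le_trans Nat.one_le_two_pow f1'
      have h4 := hbad q hq1
      have hq0 : (0 : ℝ) < q := by exact_mod_cast hq1
      by_contra hneg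
      have h5 : dist1 ((q : ℝ) * α) = 0 := le_antisymm (not_lt.1 hneg) (dist1_nonneg _)
      rw [h5, mul_zero] at h4
      linarith
    have h4 : dist1 ((q : ℝ) * α) * dist1 (q * β - ζ q) <
        (8 * 4 ^ t.1.2 / (c * 2 ^ t.1.1)) * (3 / (H t : ℝ)) :=
      calc dist1 ((q : ℝ) * α) * dist1 (q * β - ζ q) < dist1 ((q : ℝ) * α) * (3 / (H t : ℝ)) :=
            mul_lt_mul_of_pos_left hcon h3
        _ ≤ _ := mul_le_mul_of_nonneg_right h2 (by positivity)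
    have h5 : (8 * 4 ^ t.1.2 / (c * 2 ^ t.1.1)) * (3 / (H t : ℝ)) = 24 / (c * 2 ^ t.1.1 * Y t.1.1) := by
      simp only [H]
      push_cast
      field_simp
      norm_num
    linarith
  refine (measureReal_mono hsub).trans ?_
  have hV : 0 ≤ ν.real Set.univ := measureReal_nonneg
  generalize ν.real {β | ∀ t ∈ Q, 3 / (H t : ℝ) ≤ dist1 (qv t * β - ζ (qv t).toNat)} = x at key ⊢
  generalize ν.real Set.univ = V at key hV ⊢
  have hx : x ≤ 1000 * V / μ + 625 * C * S ^ 2 / μ ^ 2 := by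
    have h2 : 1000 * V / μ + 625 * C * S ^ 2 / μ ^ 2 = (1000 * V * μ + 625 * C * S ^ 2) / μ ^ 2 := by
      field_simp
    rw [h2, le_div_iff₀ (by positivity)]
    linarith
  refine hx.trans ?_
  have h3 : 0 ≤ 625 * C * S ^ 2 := by positivity
  gcongr

end Pool.Agent.KS6_31.FD
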