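import Pool.Graph.R_pool_sql_team_seeded_620a6dc7.Helper478_Lit.QC

/-!
# The second moment, for a measure
-/

set_option autoImplicit false

namespace Pool.Agent.KS6_31.FD

open Finset Filter MeasureTheory
open Pool.Agent.H469R2.NK (e norm_e e_add e_zero conj_e)
open Pool.Agent.Helper478.Lit (dist1)
open Pool.Agent.Helper478.Lit.Sq (kern)

lemma e_cont (c d : ℝ) : Continuous (fun β : ℝ => e (c * β + d)) := by
  unfold e
  fun_prop

lemma e_int (ν : Measure ℝ) [IsFiniteMeasure ν] (c : ℝ) : Integrable (fun β : ℝ => e (c * β)) ν := by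
  refine Integrable.of_bound (C := 1) ?_ ?_
  · have := e_cont c 0
    simp only [add_zero] at this
    exact this.aestronglyMeasurable
  · filter_upwards with β
    rw [norm_e]

open scoped Classical in
theorem secmomM {τ : Type} (ν : Measure ℝ) [IsFiniteMeasure ν] (Q : Finset τ) (H : τ → ℕ)
    (hH : ∀ t ∈ Q, 1 ≤ H t)
    (q : τ → ℤ) (z : τ → ℝ) (rel : τ → τ → Prop) (w : τ → ℝ) (hw0 : ∀ t, 0 ≤ w t)
    (hW : ∀ t ∈ Q, ∀ t' ∈ Q, ∀ h h' : ℤ, |h| ≤ ((2 * H t : ℕ) : ℤ) → |h'| ≤ ((2 * H t' : ℕ) : ℤ) →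
      h ≠ 0 → h' ≠ 0 →
      h * q t ≠ h' * q t' → ‖∫ β, e (((h * q t - h' * q t' : ℤ) : ℝ) * β) ∂ν‖ ≤ w t * w t')
    (hz : ∀ t ∈ Q, ∀ t' ∈ Q, ∀ h h' : ℤ, |h| ≤ ((2 * H t : ℕ) : ℤ) → |h'| ≤ ((2 * H t' : ℕ) : ℤ) →
      h ≠ 0 → h' ≠ 0 → h * q t = h' * q t' → h = h' ∧ rel t t')
    (hsym : ∀ t t', rel t t' → rel t' t)
    (hfib : ∀ t ∈ Q, ∑ t' ∈ Q.filter (fun t' => rel t t' ∧ H t ≤ H t'), 1 / (H t' : ℝ) ≤ 4 / (H t : ℝ)) :
    ν.real {β | ∀ t ∈ Q, 3 / (H t : ℝ) ≤ dist1 (q t * β - z t)} *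
      (∑ t ∈ Q, 1 / (H t : ℝ)) ^ 2 ≤
      1000 * ν.real Set.univ * (∑ t ∈ Q, 1 / (H t : ℝ)) + (25 * ∑ t ∈ Q, w t) ^ 2 := by
  have hk : ∀ t, ∃ (a : ℤ → ℝ) (f : ℝ → ℝ), 1 ≤ H t → (∀ h, |a h| ≤ (5 : ℝ) / (H t : ℝ)) ∧
      (1 : ℝ) / (H t : ℝ) ≤ a 0 ∧
      (∀ x, (f x : ℂ) = ∑ h ∈ Icc (-((2 * H t : ℕ) : ℤ)) ((2 * H t : ℕ) : ℤ), (a h : ℂ) * e ((h : ℝ) * x)) ∧
      ∀ x, 3 / (H t : ℝ) ≤ dist1 x → f x ≤ 0 := by
    intro t
    by_cases h : 1 ≤ H t
    · obtain ⟨a, h1, h2, f, h3, h4⟩ := kern (H t) h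
      exact ⟨a, f, fun _ => ⟨h1, h2, h3, h4⟩⟩
    · exact ⟨0, 0, fun h' => absurd h' h⟩
  choose a f haf using hk
  let J : τ → Finset ℤ := fun t => (Icc (-((2 * H t : ℕ) : ℤ)) ((2 * H t : ℕ) : ℤ)).erase 0
  have hJ : ∀ t h, h ∈ J t → h ≠ 0 ∧ |h| ≤ ((2 * H t : ℕ) : ℤ) := by
    intro t h hh
    simp only [J, mem_erase, mem_Icc] at hh
    exact ⟨hh.1, abs_le.2 hh.2⟩
  have hJc : ∀ t, ((J t).card : ℝ) = 4 * H t := by
    intro t
    simp only [J]
    rw [card_erase_of_mem (by rw [mem_Icc]; constructor <;> simp), Int.card_Icc]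
    have : (((2 * H t : ℕ) : ℤ) + 1 - -((2 * H t : ℕ) : ℤ)).toNat - 1 = 4 * H t := by omega
    rw [this]
    push_cast; ring
  let P : Finset (Σ _ : τ, ℤ) := Q.sigma J
  let G : ℝ → ℂ := fun β => ∑ p ∈ P, (a p.1 p.2 : ℂ) * e ((p.2 : ℝ) * (q p.1 * β - z p.1))
  obtain ⟨μ, hμ⟩ : ∃ μ : ℝ, μ = ∑ t ∈ Q, 1 / (H t : ℝ) := ⟨_, rfl⟩
  rw [← hμ]
  have hμ0 : 0 ≤ μ := by rw [hμ]; exact sum_nonneg fun _ _ => by positivity
  -- the function `G` at the bad points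
  have hG1 : ∀ β, G β = ((∑ t ∈ Q, (f t (q t * β - z t) - a t 0) : ℝ) : ℂ) := by
    intro β
    simp only [G, P]
    rw [sum_sigma]
    push_cast
    refine sum_congr rfl fun t ht => ?_
    obtain ⟨_, _, h3, _⟩ := haf t (hH t ht)
    rw [h3]
    simp only [J]
    have h0 : (0 : ℤ) ∈ Icc (-((2 * H t : ℕ) : ℤ)) ((2 * H t : ℕ) : ℤ) := by
      rw [mem_Icc]; constructor <;> simp
    rw [← add_sum_erase _ _ h0]
    simp only [Int.cast_zero, zero_mul, e_zero, mul_one]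
    ring
  have hG2 : ∀ β, (∀ t ∈ Q, 3 / (H t : ℝ) ≤ dist1 (q t * β - z t)) → μ ^ 2 ≤ ‖G β‖ ^ 2 := by
    intro β hb
    rw [hG1, Complex.norm_real, Real.norm_eq_abs, sq_abs]
    have h1 : ∑ t ∈ Q, (f t (q t * β - z t) - a t 0) ≤ -μ := by
      rw [hμ, ← sum_neg_distrib]
      refine sum_le_sum fun t ht => ?_
      obtain ⟨_, h2, _, h4⟩ := haf t (hH t ht)
      have := h4 _ (hb t ht)
      linarith
    nlinarith
  have hGc : Continuous G := by
    simp only [G]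
    refine continuous_finsetSum _ fun p _ => continuous_const.mul ?_
    have := e_cont ((p.2 : ℝ) * q p.1) (-((p.2 : ℝ) * z p.1))
    refine this.congr fun β => ?_
    congr 1
    ring
  have hGb : ∀ β, ‖G β‖ ≤ ∑ p ∈ P, |a p.1 p.2| := by
    intro β
    simp only [G]
    refine (norm_sum_le _ _).trans (sum_le_sum fun p _ => ?_)
    rw [norm_mul, norm_e, mul_one, Complex.norm_real, Real.norm_eq_abs]
  have hGi : Integrable (fun β => ‖G β‖ ^ 2) ν := by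
    refine Integrable.of_bound (C := (∑ p ∈ P, |a p.1 p.2|) ^ 2) ?_ ?_
    · exact (hGc.norm.pow 2).aestronglyMeasurable
    · filter_upwards with β
      rw [Real.norm_eq_abs, abs_of_nonneg (by positivity)]
      exact pow_le_pow_left₀ (norm_nonneg _) (hGb β) 2
  -- the second moment
  have hexp : ((∫ β, ‖G β‖ ^ 2 ∂ν : ℝ) : ℂ) = ∑ p ∈ P, ∑ p' ∈ P, (a p.1 p.2 : ℂ) * (a p'.1 p'.2 : ℂ) *
      e (-((p.2 : ℝ) * z p.1) + (p'.2 : ℝ) * z p'.1) *
      ∫ β, e (((p.2 * q p.1 - p'.2 * q p'.1 : ℤ) : ℝ) * β) ∂ν := by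
    have h1 : ∀ β, ((‖G β‖ ^ 2 : ℝ) : ℂ) = ∑ p ∈ P, ∑ p' ∈ P, (a p.1 p.2 : ℂ) * (a p'.1 p'.2 : ℂ) *
      e (-((p.2 : ℝ) * z p.1) + (p'.2 : ℝ) * z p'.1) *
      e (((p.2 * q p.1 - p'.2 * q p'.1 : ℤ) : ℝ) * β) := by
      intro β
      have h2 : ((‖G β‖ ^ 2 : ℝ) : ℂ) = G β * (starRingEnd ℂ) (G β) := by
        rw [Complex.mul_conj, Complex.normSq_eq_norm_sq]
      rw [h2]
      simp only [G]
      rw [map_sum, sum_mul_sum]
      refine sum_congr rfl fun p _ => sum_congr rfl fun p' _ => ?_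
      rw [map_mul, Complex.conj_ofReal, conj_e, mul_mul_mul_comm, ← e_add, mul_assoc ((a p.1 p.2 : ℂ) * _),
        ← e_add]
      congr 2
      push_cast
      ring
    rw [← integral_complex_ofReal]
    simp_rw [h1]
    rw [integral_finsetSum]
    · refine sum_congr rfl fun p _ => ?_
      rw [integral_finsetSum]
      · refine sum_congr rfl fun p' _ => ?_
        rw [integral_const_mul]
      · intro p' _
        exact (e_int ν _).const_mul _
    · intro p _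
      refine integrable_finsetSum _ fun p' _ => ?_
      exact (e_int ν _).const_mul _
  have hnorm : ∫ β, ‖G β‖ ^ 2 ∂ν ≤ ∑ p ∈ P, ∑ p' ∈ P, |a p.1 p.2| * |a p'.1 p'.2| *
      (w p.1 * w p'.1 + if p.2 = p'.2 ∧ rel p.1 p'.1 then ν.real Set.univ else 0) := by
    have h0 : 0 ≤ ∫ β, ‖G β‖ ^ 2 ∂ν := integral_nonneg fun _ => by positivity
    have h1 : ∫ β, ‖G β‖ ^ 2 ∂ν = ‖((∫ β, ‖G β‖ ^ 2 ∂ν : ℝ) : ℂ)‖ := by
      rw [Complex.norm_real, Real.norm_eq_abs, abs_of_nonneg h0]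
    rw [h1, hexp]
    refine (norm_sum_le _ _).trans (sum_le_sum fun p hp => (norm_sum_le _ _).trans (sum_le_sum fun p' hp' => ?_))
    rw [norm_mul, norm_mul, norm_mul, norm_e, mul_one, Complex.norm_real, Complex.norm_real,
      Real.norm_eq_abs, Real.norm_eq_abs]
    apply mul_le_mul_of_nonneg_left _ (by positivity)
    simp only [P, mem_sigma] at hp hp'
    obtain ⟨g1, g2⟩ := hJ _ _ hp.2
    obtain ⟨g3, g4⟩ := hJ _ _ hp'.2
    have hww : 0 ≤ w p.1 * w p'.1 := mul_nonneg (hw0 _) (hw0 _)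
    have hν0 : 0 ≤ ν.real Set.univ := measureReal_nonneg
    by_cases heq : p.2 * q p.1 = p'.2 * q p'.1
    · rw [if_pos (hz p.1 hp.1 p'.1 hp'.1 p.2 p'.2 g2 g4 g1 g3 heq)]
      have h2 : ‖∫ β, e (((p.2 * q p.1 - p'.2 * q p'.1 : ℤ) : ℝ) * β) ∂ν‖ ≤ 1 * ν.real Set.univ := by
        apply norm_integral_le_of_norm_le_const
        filter_upwards with β
        rw [norm_e]
      linarith
    · refine (hW p.1 hp.1 p'.1 hp'.1 p.2 p'.2 g2 g4 g1 g3 heq).trans ?_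
      split_ifs
      · linarith
      · linarith
  -- the sums of the coefficients
  have hP1 : ∑ p ∈ P, |a p.1 p.2| * w p.1 ≤ 25 * ∑ t ∈ Q, w t := by
    simp only [P]
    rw [sum_sigma, mul_sum]
    refine sum_le_sum fun t ht => ?_
    obtain ⟨h2, _⟩ := haf t (hH t ht)
    have hH0 : (0 : ℝ) < H t := by exact_mod_cast hH t ht
    have hw := hw0 t
    calc ∑ h ∈ J t, |a t h| * w t ≤ ∑ h ∈ J t, (5 : ℝ) / (H t : ℝ) * w t :=
          sum_le_sum fun h _ => mul_le_mul_of_nonneg_right (h2 h) hw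
      _ = 20 * w t := by
          rw [sum_const, nsmul_eq_mul, hJc]
          field_simp
          ring
      _ ≤ 25 * w t := by linarith
  have key : ∀ t ∈ Q, ∀ t' ∈ Q, ∑ h ∈ J t, ∑ h' ∈ J t', (if h = h' ∧ rel t t' then |a t h| * |a t' h'| else 0) ≤
      100 * ((if rel t t' ∧ H t ≤ H t' then 1 / (H t' : ℝ) else 0) +
        (if rel t t' ∧ H t' ≤ H t then 1 / (H t : ℝ) else 0)) := by
    intro t ht t' ht'
    have hH0 : (0 : ℝ) < H t := by exact_mod_cast hH t ht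
    have hH0' : (0 : ℝ) < H t' := by exact_mod_cast hH t' ht'
    by_cases hr : rel t t'
    · obtain ⟨h2, _⟩ := haf t (hH t ht)
      obtain ⟨h2', _⟩ := haf t' (hH t' ht')
      obtain ⟨c, hc⟩ : ∃ c : ℝ, c = 25 / ((H t : ℝ) * H t') := ⟨_, rfl⟩
      have hc0 : 0 ≤ c := by rw [hc]; positivity
      have h3 : ∑ h ∈ J t, ∑ h' ∈ J t', (if h = h' ∧ rel t t' then |a t h| * |a t' h'| else 0) ≤
          ∑ h ∈ J t, ∑ h' ∈ J t', (if h = h' then c else 0) := by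
        refine sum_le_sum fun h _ => sum_le_sum fun h' _ => ?_
        by_cases hh : h = h'
        · rw [if_pos ⟨hh, hr⟩, if_pos hh, hc]
          calc |a t h| * |a t' h'| ≤ (5 / (H t : ℝ)) * (5 / (H t' : ℝ)) :=
                mul_le_mul (h2 h) (h2' h') (abs_nonneg _) (by positivity)
            _ = _ := by field_simp; norm_num
        · rw [if_neg (fun h4 => hh h4.1), if_neg hh]
      have h4 : ∑ h ∈ J t, ∑ h' ∈ J t', (if h = h' then c else 0) ≤ 100 / H t' := by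
        calc ∑ h ∈ J t, ∑ h' ∈ J t', (if h = h' then c else 0) ≤ ∑ h ∈ J t, c := by
              refine sum_le_sum fun h _ => ?_
              rw [sum_ite_eq]
              split_ifs
              · exact le_rfl
              · exact hc0
          _ = 100 / H t' := by
              rw [sum_const, nsmul_eq_mul, hJc, hc]
              field_simp
              norm_num
      have h5 : ∑ h ∈ J t, ∑ h' ∈ J t', (if h = h' then c else 0) ≤ 100 / H t := by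
        rw [sum_comm]
        calc ∑ h' ∈ J t', ∑ h ∈ J t, (if h = h' then c else 0) ≤ ∑ h' ∈ J t', c := by
              refine sum_le_sum fun h' _ => ?_
              rw [sum_ite_eq']
              split_ifs
              · exact le_rfl
              · exact hc0
          _ = 100 / H t := by
              rw [sum_const, nsmul_eq_mul, hJc, hc]
              field_simp
              norm_num
      have p1 : 0 ≤ 1 / (H t : ℝ) := by positivity
      have p2 : 0 ≤ 1 / (H t' : ℝ) := by positivity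
      have p3 : 100 / (H t : ℝ) = 100 * (1 / H t) := by ring
      have p4 : 100 / (H t' : ℝ) = 100 * (1 / H t') := by ring
      rcases le_total (H t) (H t') with hle | hle
      · rw [if_pos ⟨hr, hle⟩]
        split_ifs
        · linarith
        · linarith
      · rw [if_pos (⟨hr, hle⟩ : rel t t' ∧ H t' ≤ H t)]
        split_ifs
        · linarith
        · linarith
    · rw [if_neg (fun h4 => hr h4.1), if_neg (fun h4 => hr h4.1)]
      simp [hr]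
  have hP2 : ∑ p ∈ P, ∑ p' ∈ P, (if p.2 = p'.2 ∧ rel p.1 p'.1 then |a p.1 p.2| * |a p'.1 p'.2| else 0) ≤
      800 * μ := by
    simp only [P]
    rw [sum_sigma]
    have h1 : ∀ t ∈ Q, ∑ h ∈ J t, ∑ p' ∈ Q.sigma J, (if h = p'.2 ∧ rel t p'.1 then |a t h| * |a p'.1 p'.2| else 0) =
        ∑ t' ∈ Q, ∑ h ∈ J t, ∑ h' ∈ J t', (if h = h' ∧ rel t t' then |a t h| * |a t' h'| else 0) := by
      intro t _
      rw [sum_comm' (s := Q) (t := fun _ => J t) (t' := J t) (s' := fun _ => Q) (by intro x y; tauto)]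
      refine sum_congr rfl fun h _ => ?_
      rw [sum_sigma]
    rw [sum_congr rfl h1]
    refine (sum_le_sum fun t ht => sum_le_sum fun t' ht' => key t ht t' ht').trans ?_
    simp_rw [← mul_sum, sum_add_distrib]
    have h2 : ∑ t ∈ Q, ∑ t' ∈ Q, (if rel t t' ∧ H t ≤ H t' then 1 / (H t' : ℝ) else 0) ≤ 4 * μ := by
      rw [hμ, mul_sum]
      refine sum_le_sum fun t ht => ?_
      rw [← sum_filter]
      refine (hfib t ht).trans (le_of_eq ?_)
      ring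
    have h3 : ∑ t ∈ Q, ∑ t' ∈ Q, (if rel t t' ∧ H t' ≤ H t then 1 / (H t : ℝ) else 0) ≤ 4 * μ := by
      rw [sum_comm]
      refine le_trans (le_of_eq ?_) h2
      refine sum_congr rfl fun t _ => sum_congr rfl fun t' _ => ?_
      refine if_congr ?_ rfl rfl
      constructor
      · rintro ⟨h4, h5⟩; exact ⟨hsym _ _ h4, h5⟩
      · rintro ⟨h4, h5⟩; exact ⟨hsym _ _ h4, h5⟩
    linarith
  have hfinal : ∫ β, ‖G β‖ ^ 2 ∂ν ≤ (25 * ∑ t ∈ Q, w t) ^ 2 + ν.real Set.univ * (800 * μ) := by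
    refine hnorm.trans ?_
    have h1 : ∀ p ∈ P, ∀ p' ∈ P, |a p.1 p.2| * |a p'.1 p'.2| *
        (w p.1 * w p'.1 + if p.2 = p'.2 ∧ rel p.1 p'.1 then ν.real Set.univ else 0) =
        (|a p.1 p.2| * w p.1) * (|a p'.1 p'.2| * w p'.1) + ν.real Set.univ *
          (if p.2 = p'.2 ∧ rel p.1 p'.1 then |a p.1 p.2| * |a p'.1 p'.2| else 0) := by
      intro p _ p' _
      split_ifs
      · ring
      · ring
    rw [sum_congr rfl fun p hp => sum_congr rfl fun p' hp' => h1 p hp p' hp']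
    simp_rw [sum_add_distrib, ← mul_sum]
    have h2 : ∑ p ∈ P, (|a p.1 p.2| * w p.1) * ∑ p' ∈ P, (|a p'.1 p'.2| * w p'.1) =
        (∑ p ∈ P, |a p.1 p.2| * w p.1) ^ 2 := by
      rw [sq, sum_mul]
    rw [h2]
    have h3 : (∑ p ∈ P, |a p.1 p.2| * w p.1) ^ 2 ≤ (25 * ∑ t ∈ Q, w t) ^ 2 :=
      pow_le_pow_left₀ (sum_nonneg fun _ _ => mul_nonneg (abs_nonneg _) (hw0 _)) hP1 2
    have h4 : (0 : ℝ) ≤ ν.real Set.univ := measureReal_nonneg
    exact add_le_add h3 (mul_le_mul_of_nonneg_left hP2 h4)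
  have hmark := mul_meas_ge_le_integral_of_nonneg (μ := ν) (f := fun β => ‖G β‖ ^ 2)
    (Eventually.of_forall fun β => by positivity) hGi (μ ^ 2)
  have hmono : ν.real {β | ∀ t ∈ Q, 3 / (H t : ℝ) ≤ dist1 (q t * β - z t)} ≤
      ν.real {β | μ ^ 2 ≤ ‖G β‖ ^ 2} := measureReal_mono (fun β hβ => hG2 β hβ)
  have h4 : (0 : ℝ) ≤ ν.real Set.univ := measureReal_nonneg
  have h5 : 0 ≤ ν.real Set.univ * μ := mul_nonneg h4 hμ0
  calc ν.real {β | ∀ t ∈ Q, 3 / (H t : ℝ) ≤ dist1 (q t * β - z t)} * μ ^ 2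
      ≤ ν.real {β | μ ^ 2 ≤ ‖G β‖ ^ 2} * μ ^ 2 := mul_le_mul_of_nonneg_right hmono (by positivity)
    _ = μ ^ 2 * ν.real {β | μ ^ 2 ≤ ‖G β‖ ^ 2} := mul_comm _ _
    _ ≤ ∫ β, ‖G β‖ ^ 2 ∂ν := hmark
    _ ≤ _ := by nlinarith [hfinal]

end Pool.Agent.KS6_31.FD
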