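import Pool.Agent.KS6_31.FD.SecMom
import Pool.Graph.R_pool_sql_team_seeded_620a6dc7.Helper478_Lit.QD

/-!
# Separation of the frequencies
-/

set_option autoImplicit false

namespace Pool.Agent.KS6_31.FD

open Finset Filter MeasureTheory
open Pool.Agent.Helper478.Lit (dist1 dist1_nonneg dist1_half)

/-- lower bound for `|m|` if `m α` is close to an integer -/
lemma bad_low (α c : ℝ) (hbad : ∀ q : ℕ, 1 ≤ q → c ≤ q * dist1 (q * α)) (m a : ℤ) (hm : m ≠ 0)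
    (δ : ℝ) (h : |(m : ℝ) * α - a| ≤ δ) : c ≤ |(m : ℝ)| * δ := by
  have h2 := hbad m.natAbs (Int.natAbs_pos.2 hm)
  have h3 : ((m.natAbs : ℕ) : ℝ) = |(m : ℝ)| := by
    rw [← Int.cast_abs, ← Int.natCast_natAbs]; rfl
  rw [h3] at h2
  have h4 : dist1 (|(m : ℝ)| * α) ≤ δ := by
    rcases abs_cases (m : ℝ) with ⟨h5, _⟩ | ⟨h5, _⟩
    · rw [h5]
      exact (round_le _ a).trans h
    · rw [h5]
      refine (round_le _ (-a)).trans ?_
      refine le_trans (le_of_eq ?_) h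
      rw [← abs_neg]
      congr 1
      push_cast; ring
  exact h2.trans (mul_le_mul_of_nonneg_left h4 (abs_nonneg _))

/-- **separation** -/
lemma sep (α c : ℝ) (hc : 0 < c) (hc1 : c ≤ 1) (hbad : ∀ q : ℕ, 1 ≤ q → c ≤ q * dist1 (q * α))
    (l l' D : ℕ) (_hll : l' ≤ l) (hl1 : 1 ≤ l)
    (hlarge : 400 * (64 : ℝ) ^ D * (l : ℝ) ^ 6 ≤ c ^ 2 * (2 : ℝ) ^ ((l : ℝ) / 2))
    (q P q' P' h h' : ℤ)
    (hq : (2 : ℝ) ^ l ≤ q) (hq'0 : 0 < q') (hq' : (q' : ℝ) ≤ 6 * 2 ^ l')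
    (hh0 : h ≠ 0)
    (hh' : |(h' : ℝ)| ≤ 2 * (4 ^ D * l ^ 3))
    (hE : |(h : ℝ) * ((q : ℝ) * α - P)| ≤ 16 * 16 ^ D * l ^ 3 / (c * 2 ^ l))
    (hE' : |(h' : ℝ) * ((q' : ℝ) * α - P')| ≤ 16 * 16 ^ D * l ^ 3 / (c * 2 ^ l')) :
    (h * q ≠ h' * q' → (2 : ℝ) ^ ((l : ℝ) / 2) ≤ |((h * q - h' * q' : ℤ) : ℝ)|) ∧
    (h * q = h' * q' → h * P = h' * P') := by
  have hlR : (1 : ℝ) ≤ l := by exact_mod_cast hl1
  have h2l : (0 : ℝ) < 2 ^ l := by positivity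
  have h2l' : (0 : ℝ) < 2 ^ l' := by positivity
  have hhalf : (2 : ℝ) ^ ((l : ℝ) / 2) * (2 : ℝ) ^ ((l : ℝ) / 2) = 2 ^ l := by
    rw [← Real.rpow_add (by norm_num), add_halves, Real.rpow_natCast]
  have hs1 : 1 ≤ (2 : ℝ) ^ ((l : ℝ) / 2) := Real.one_le_rpow (by norm_num) (by positivity)
  set s := (2 : ℝ) ^ ((l : ℝ) / 2) with hs
  have h64 : (1 : ℝ) ≤ 64 ^ D := one_le_pow₀ (by norm_num)
  have hl6 : (1 : ℝ) ≤ (l : ℝ) ^ 6 := one_le_pow₀ hlR
  have hs400 : 400 ≤ s := by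
    have h1 : 400 * 1 * 1 ≤ 400 * (64 : ℝ) ^ D * (l : ℝ) ^ 6 := by gcongr
    have h2 : c ^ 2 * s ≤ 1 * s := by
      gcongr
      nlinarith
    linarith
  have hq0 : (0 : ℝ) < q := by linarith
  have habsh : (1 : ℝ) ≤ |(h : ℝ)| := by
    have := Int.one_le_abs hh0
    rw [← Int.cast_abs]
    exact_mod_cast this
  have hhq : (2 : ℝ) ^ l ≤ |(h : ℝ) * q| := by
    rw [abs_mul, abs_of_pos hq0]
    nlinarith
  rcases le_or_gt |(h' : ℝ) * q'| (|(h : ℝ) * q| / 2) with hcase | hcase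
  · have h1 : (2 : ℝ) ^ l / 2 ≤ |((h * q - h' * q' : ℤ) : ℝ)| := by
      push_cast
      have := abs_sub_abs_le_abs_sub ((h : ℝ) * q) ((h' : ℝ) * q')
      linarith
    refine ⟨fun _ => ?_, fun heq => ?_⟩
    · rw [← hhalf] at h1
      nlinarith
    · exfalso
      rw [heq, sub_self, Int.cast_zero, abs_zero] at h1
      linarith
  · -- the scales are close
    have hq'R : (0 : ℝ) < q' := by exact_mod_cast hq'0
    have h1 : |(h' : ℝ) * q'| ≤ 12 * 4 ^ D * l ^ 3 * 2 ^ l' := by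
      rw [abs_mul, abs_of_pos hq'R]
      calc |(h' : ℝ)| * q' ≤ (2 * (4 ^ D * l ^ 3)) * (6 * 2 ^ l') := by gcongr
        _ = _ := by ring
    have h2 : (2 : ℝ) ^ l ≤ 24 * 4 ^ D * l ^ 3 * 2 ^ l' := by linarith
    have hE2 : |(h' : ℝ) * ((q' : ℝ) * α - P')| ≤
        16 * 16 ^ D * l ^ 3 * (24 * 4 ^ D * l ^ 3) / (c * 2 ^ l) := by
      refine hE'.trans ?_
      rw [div_le_div_iff₀ (by positivity) (by positivity)]
      have h3 : 0 ≤ 16 * 16 ^ D * (l : ℝ) ^ 3 * c := by positivity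
      calc 16 * 16 ^ D * (l : ℝ) ^ 3 * (c * 2 ^ l) = 16 * 16 ^ D * (l : ℝ) ^ 3 * c * 2 ^ l := by ring
        _ ≤ 16 * 16 ^ D * (l : ℝ) ^ 3 * c * (24 * 4 ^ D * l ^ 3 * 2 ^ l') := by gcongr
        _ = _ := by ring
    have hδ : |((h * q - h' * q' : ℤ) : ℝ) * α - ((h * P - h' * P' : ℤ) : ℝ)| ≤ c / s := by
      have h3 : ((h * q - h' * q' : ℤ) : ℝ) * α - ((h * P - h' * P' : ℤ) : ℝ) =
          (h : ℝ) * ((q : ℝ) * α - P) - (h' : ℝ) * ((q' : ℝ) * α - P') := by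
        push_cast; ring
      rw [h3]
      refine (abs_sub _ _).trans ?_
      have h4 : 16 * 16 ^ D * (l : ℝ) ^ 3 / (c * 2 ^ l) +
          16 * 16 ^ D * (l : ℝ) ^ 3 * (24 * 4 ^ D * l ^ 3) / (c * 2 ^ l) ≤
          400 * (64 : ℝ) ^ D * (l : ℝ) ^ 6 / (c * 2 ^ l) := by
        rw [← add_div]
        apply div_le_div_of_nonneg_right _ (by positivity)
        have h5 : (64 : ℝ) ^ D = 16 ^ D * 4 ^ D := by rw [← mul_pow]; norm_num
        rw [h5]
        have h6 : (1 : ℝ) ≤ 4 ^ D := one_le_pow₀ (by norm_num)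
        have h7 : (1 : ℝ) ≤ (l : ℝ) ^ 3 := one_le_pow₀ hlR
        have h8 : 0 < (16 : ℝ) ^ D * (l : ℝ) ^ 3 := by positivity
        have h9 : (1 : ℝ) ≤ 4 ^ D * (l : ℝ) ^ 3 := by nlinarith
        nlinarith [mul_le_mul_of_nonneg_left h9 h8.le]
      have h5 : 400 * (64 : ℝ) ^ D * (l : ℝ) ^ 6 / (c * 2 ^ l) ≤ c / s := by
        rw [← hhalf, div_le_div_iff₀ (by positivity) (by positivity)]
        calc 400 * (64 : ℝ) ^ D * (l : ℝ) ^ 6 * s ≤ c ^ 2 * s * s := by gcongr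
          _ = _ := by ring
      linarith
    refine ⟨fun hne => ?_, fun heq => ?_⟩
    · have h3 := bad_low α c hbad (h * q - h' * q') (h * P - h' * P') (sub_ne_zero.2 hne) _ hδ
      rw [mul_div_assoc', le_div_iff₀ (by positivity)] at h3
      have h4 : c * s ≤ c * |((h * q - h' * q' : ℤ) : ℝ)| := by linarith
      exact le_of_mul_le_mul_left h4 hc
    · have h3 : h * q - h' * q' = 0 := by rw [heq, sub_self]
      rw [h3, Int.cast_zero, zero_mul, zero_sub, abs_neg] at hδ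
      have h4 : c / s < 1 := by
        rw [div_lt_one (by positivity)]
        linarith
      have h5 : |((h * P - h' * P' : ℤ) : ℝ)| < 1 := lt_of_le_of_lt hδ h4
      rw [← Int.cast_abs] at h5
      have h6 : |h * P - h' * P'| < 1 := by exact_mod_cast h5
      have h7 := Int.abs_lt_one_iff.1 h6
      linarith

/-- primitive vectors -/
lemma prim (q P q' P' h h' : ℤ) (hp : ∃ x y : ℤ, x * q + y * P = 1)
    (hp' : ∃ x y : ℤ, x * q' + y * P' = 1) (hq : 0 < q) (hq' : 0 < q') (h0 : h ≠ 0) (h0' : h' ≠ 0)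
    (heq : h * q = h' * q') (heq2 : h * P = h' * P') : h = h' ∧ q = q' ∧ P = P' := by
  obtain ⟨x, y, hxy⟩ := hp
  obtain ⟨x', y', hxy'⟩ := hp'
  have d1 : h' ∣ h := ⟨x * q' + y * P', by linear_combination (-h) * hxy + x * heq + y * heq2⟩
  have d2 : h ∣ h' := ⟨x' * q + y' * P, by linear_combination (-h') * hxy' - x' * heq - y' * heq2⟩
  have hh2 : h = h' := by
    rcases Int.natAbs_eq_natAbs_iff.1 (Int.natAbs_eq_of_dvd_dvd d2 d1) with h5 | h5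
    · exact h5
    · exfalso
      have h6 : h' * (q + q') = 0 := by
        have : h = -h' := by omega
        rw [this] at heq
        linarith
      rcases mul_eq_zero.1 h6 with h7 | h7
      · exact h0' h7
      · linarith
  subst hh2
  exact ⟨rfl, mul_left_cancel₀ h0 heq, mul_left_cancel₀ h0 heq2⟩

end Pool.Agent.KS6_31.FD
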